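import Mathlib

/-! Phases for the two-ray configuration. -/

namespace Pool.Agent.V1174.FF
open Real

/-- the phase of `1 - e^s ω` -/
noncomputable def pA (s : ℝ) : ℝ := π / 3 + arctan (√3 * (exp s - 1) / (exp s + 1))
/-- the odd part of the phase of `1 - e^s ω²` -/
noncomputable def pB (s : ℝ) : ℝ := arctan ((exp s - 1) / (√3 * (exp s + 1)))

lemma s3 : √3 * √3 = (3 : ℝ) := Real.mul_self_sqrt (by norm_num)
lemma s3pos : (0 : ℝ) < √3 := Real.sqrt_pos.mpr (by norm_num)

lemma arctan_s3 : arctan (√3) = π / 3 := by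
  rw [← Real.tan_pi_div_three]
  apply Real.arctan_tan <;> linarith [Real.pi_pos]

lemma arctan_inv_s3 : arctan (1 / √3) = π / 6 := by
  rw [← Real.tan_pi_div_six]
  apply Real.arctan_tan <;> linarith [Real.pi_pos]

lemma arctan_sub_le {x y : ℝ} (h : x ≤ y) : arctan y - arctan x ≤ y - x := by
  have hm : Monotone (fun t : ℝ => t - arctan t) := by
    apply monotone_of_deriv_nonneg
    · exact differentiable_id.sub Real.differentiable_arctan
    · intro t
      have : deriv (fun t : ℝ => t - arctan t) t = 1 - 1 / (1 + t ^ 2) := by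
        have h1 := (hasDerivAt_id t).sub (Real.hasDerivAt_arctan t)
        exact h1.deriv
      rw [this]
      have : 1 / (1 + t ^ 2) ≤ 1 := by
        rw [div_le_one (by positivity)]; nlinarith [sq_nonneg t]
      linarith
  have := hm h
  simp only at this
  linarith

lemma pA_le (s : ℝ) : pA s ≤ 2 * π / 3 := by
  have h : arctan (√3 * (exp s - 1) / (exp s + 1)) ≤ arctan √3 := by
    apply Real.arctan_mono
    rw [div_le_iff₀ (by positivity)]
    have := s3pos
    have := Real.exp_pos s
    nlinarith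
  rw [arctan_s3] at h
  unfold pA; linarith

lemma pA_nonneg (s : ℝ) : 0 ≤ pA s := by
  have h : arctan (-√3) ≤ arctan (√3 * (exp s - 1) / (exp s + 1)) := by
    apply Real.arctan_mono
    rw [le_div_iff₀ (by positivity)]
    have := s3pos
    have := Real.exp_pos s
    nlinarith
  rw [Real.arctan_neg, arctan_s3] at h
  unfold pA; linarith

lemma pA_ge (s : ℝ) : 2 * π / 3 - 2 * √3 * exp (-s) ≤ pA s := by
  have h0 := s3pos
  have he := Real.exp_pos s
  have hle : √3 * (exp s - 1) / (exp s + 1) ≤ √3 := by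
    rw [div_le_iff₀ (by positivity)]; nlinarith
  have h := arctan_sub_le hle
  rw [arctan_s3] at h
  have h2 : √3 - √3 * (exp s - 1) / (exp s + 1) ≤ 2 * √3 * exp (-s) := by
    rw [Real.exp_neg]
    have : √3 - √3 * (exp s - 1) / (exp s + 1) = 2 * √3 / (exp s + 1) := by
      field_simp; ring
    rw [this, ← div_eq_mul_inv]
    apply div_le_div_of_nonneg_left (by positivity) he (by linarith)
  unfold pA; linarith

lemma pA_le' (s : ℝ) : pA s ≤ 2 * √3 * exp s := by
  have h0 := s3pos
  have he := Real.exp_pos s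
  have hle : -√3 ≤ √3 * (exp s - 1) / (exp s + 1) := by
    rw [le_div_iff₀ (by positivity)]; nlinarith
  have h := arctan_sub_le hle
  rw [Real.arctan_neg, arctan_s3] at h
  have h2 : √3 * (exp s - 1) / (exp s + 1) - (-√3) ≤ 2 * √3 * exp s := by
    have : √3 * (exp s - 1) / (exp s + 1) - (-√3) = 2 * √3 * exp s / (exp s + 1) := by
      field_simp; ring
    rw [this, div_le_iff₀ (by positivity)]
    nlinarith [mul_pos h0 he, mul_pos (mul_pos h0 he) he]
  unfold pA; linarith

lemma pB_abs (s : ℝ) : |pB s| ≤ π / 6 := by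
  have h0 := s3pos
  have he := Real.exp_pos s
  rw [abs_le]
  constructor
  · have h : arctan (-(1 / √3)) ≤ arctan ((exp s - 1) / (√3 * (exp s + 1))) := by
      apply Real.arctan_mono
      rw [neg_le_iff_add_nonneg]
      have : (exp s - 1) / (√3 * (exp s + 1)) + 1 / √3 = 2 * exp s / (√3 * (exp s + 1)) := by
        field_simp; ring
      rw [this]; positivity
    rw [Real.arctan_neg, arctan_inv_s3] at h
    exact h
  · have h : arctan ((exp s - 1) / (√3 * (exp s + 1))) ≤ arctan (1 / √3) := by
      apply Real.arctan_mono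
      rw [← sub_nonneg]
      have : 1 / √3 - (exp s - 1) / (√3 * (exp s + 1)) = 2 / (√3 * (exp s + 1)) := by
        field_simp; ring
      rw [this]; positivity
    rw [arctan_inv_s3] at h
    exact h

lemma pB_neg (s : ℝ) : pB (-s) = -pB s := by
  unfold pB
  rw [← Real.arctan_neg]
  congr 1
  rw [Real.exp_neg]
  have := Real.exp_pos s
  have h0 := s3pos
  field_simp
  ring

lemma pB_zero : pB 0 = 0 := by simp [pB]

lemma pA_cont : Continuous pA := by
  unfold pA
  refine continuous_const.add (Real.continuous_arctan.comp ?_)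
  refine Continuous.div (by fun_prop) (by fun_prop) ?_
  intro s; positivity

lemma pB_cont : Continuous pB := by
  unfold pB
  refine Real.continuous_arctan.comp ?_
  refine Continuous.div (by fun_prop) (by fun_prop) ?_
  intro s
  have h0 := s3pos
  positivity

/-- the sixth root of unity -/
noncomputable def om : ℂ := ⟨1 / 2, √3 / 2⟩

lemma phA (s : ℝ) : ∃ ρ : ℝ, 0 < ρ ∧
    (1 - (Real.exp s : ℂ) * om) = ρ * Complex.exp (-(Complex.I * (pA s : ℝ))) := by
  set t := exp s with ht
  have htp : 0 < t := Real.exp_pos s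
  set y := √3 * (t - 1) / (t + 1) with hy
  have h0 := s3pos
  have h3 := s3
  have hy' : y * (t + 1) = √3 * (t - 1) := by rw [hy]; field_simp
  have hs : 0 < √(1 + y ^ 2) := Real.sqrt_pos.mpr (by positivity)
  refine ⟨√(1 + y ^ 2) * ((t + 1) / 2), by positivity, ?_⟩
  have hc : cos (pA s) = (1 / 2 - √3 / 2 * y) / √(1 + y ^ 2) := by
    unfold pA
    rw [← ht, ← hy, Real.cos_add, Real.cos_pi_div_three, Real.sin_pi_div_three, Real.cos_arctan,
      Real.sin_arctan]
    field_simp
  have hsn : sin (pA s) = (√3 / 2 + 1 / 2 * y) / √(1 + y ^ 2) := by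
    unfold pA
    rw [← ht, ← hy, Real.sin_add, Real.cos_pi_div_three, Real.sin_pi_div_three, Real.cos_arctan,
      Real.sin_arctan]
    field_simp
  have he : Complex.exp (-(Complex.I * (pA s : ℝ))) = ⟨cos (pA s), - sin (pA s)⟩ := by
    rw [show -(Complex.I * ((pA s : ℝ) : ℂ)) = ((-(pA s) : ℝ) : ℂ) * Complex.I by
      push_cast; ring]
    apply Complex.ext
    · rw [Complex.exp_ofReal_mul_I_re, Real.cos_neg]
    · rw [Complex.exp_ofReal_mul_I_im, Real.sin_neg]
  rw [he, hc, hsn]
  apply Complex.ext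
  · simp [om]
    field_simp
    nlinarith
  · simp [om]
    field_simp
    nlinarith

lemma phB (s : ℝ) : ∃ ρ : ℝ, 0 < ρ ∧
    (1 - (Real.exp s : ℂ) * om ^ 2) = ρ * Complex.exp (-(Complex.I * ((pB s + π / 6 : ℝ) : ℂ))) := by
  set t := exp s with ht
  have htp : 0 < t := Real.exp_pos s
  set y := (t - 1) / (√3 * (t + 1)) with hy
  have h0 := s3pos
  have h3 := s3
  have hy' : y * (√3 * (t + 1)) = (t - 1) := by rw [hy]; field_simp
  have hs : 0 < √(1 + y ^ 2) := Real.sqrt_pos.mpr (by positivity)
  refine ⟨√(1 + y ^ 2) * (√3 * (t + 1) / 2), by positivity, ?_⟩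
  have hc : cos (pB s + π / 6) = (√3 / 2 - 1 / 2 * y) / √(1 + y ^ 2) := by
    unfold pB
    rw [← ht, ← hy, Real.cos_add, Real.cos_pi_div_six, Real.sin_pi_div_six, Real.cos_arctan,
      Real.sin_arctan]
    field_simp
  have hsn : sin (pB s + π / 6) = (√3 / 2 * y + 1 / 2) / √(1 + y ^ 2) := by
    unfold pB
    rw [← ht, ← hy, Real.sin_add, Real.cos_pi_div_six, Real.sin_pi_div_six, Real.cos_arctan,
      Real.sin_arctan]
    field_simp
  have he : Complex.exp (-(Complex.I * ((pB s + π / 6 : ℝ) : ℂ)))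
      = ⟨cos (pB s + π / 6), - sin (pB s + π / 6)⟩ := by
    rw [show -(Complex.I * ((pB s + π / 6 : ℝ) : ℂ)) = ((-(pB s + π / 6) : ℝ) : ℂ) * Complex.I by
      push_cast; ring]
    apply Complex.ext
    · rw [Complex.exp_ofReal_mul_I_re, Real.cos_neg]
    · rw [Complex.exp_ofReal_mul_I_im, Real.sin_neg]
  rw [he, hc, hsn]
  apply Complex.ext
  · simp [om, pow_two]
    field_simp
    nlinarith
  · simp [om, pow_two]
    field_simp
    nlinarith

end Pool.Agent.V1174.FF
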