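import Mathlib
import Pool.Agent.V1174.FF.Ph

/-! Existence of a critical configuration by minimisation. -/

namespace Pool.Agent.V1174.FF
open Real intervalIntegral

/-- primitive of `pA` -/
noncomputable def VV (s : ℝ) : ℝ := ∫ t in (0:ℝ)..s, pA t
/-- primitive of `pB` -/
noncomputable def WW (s : ℝ) : ℝ := ∫ t in (0:ℝ)..s, pB t

lemma VV_deriv (s : ℝ) : HasDerivAt VV (pA s) s :=
  intervalIntegral.integral_hasDerivAt_right (pA_cont.intervalIntegrable _ _)
    (pA_cont.stronglyMeasurableAtFilter _ _) pA_cont.continuousAt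

lemma WW_deriv (s : ℝ) : HasDerivAt WW (pB s) s :=
  intervalIntegral.integral_hasDerivAt_right (pB_cont.intervalIntegrable _ _)
    (pB_cont.stronglyMeasurableAtFilter _ _) pB_cont.continuousAt

lemma VV_cont : Continuous VV := continuous_iff_continuousAt.mpr fun s => (VV_deriv s).continuousAt
lemma WW_cont : Continuous WW := continuous_iff_continuousAt.mpr fun s => (WW_deriv s).continuousAt

lemma VV_ge_pos (s : ℝ) (hs : 0 ≤ s) : 2 * π / 3 * s - 2 * √3 ≤ VV s := by
  have hd : ∀ t, HasDerivAt (fun t => VV t - 2 * π / 3 * t - 2 * √3 * exp (-t))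
      (pA t - 2 * π / 3 * 1 - 2 * √3 * (exp (-t) * (-1))) t := by
    intro t
    exact ((VV_deriv t).sub ((hasDerivAt_id t).const_mul _)).sub
      (((hasDerivAt_neg t).exp).const_mul _)
  have hm : Monotone (fun t => VV t - 2 * π / 3 * t - 2 * √3 * exp (-t)) := by
    apply monotone_of_deriv_nonneg
    · intro t; exact (hd t).differentiableAt
    · intro t
      rw [(hd t).deriv]
      have := pA_ge t
      linarith
  have h := hm hs
  have h0 : VV 0 = 0 := by simp [VV]
  simp only [h0, neg_zero, Real.exp_zero] at h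
  have : 0 ≤ 2 * √3 * exp (-s) := by positivity
  linarith

lemma VV_ge_neg (s : ℝ) (hs : s ≤ 0) : - (2 * √3) ≤ VV s := by
  have hd : ∀ t, HasDerivAt (fun t => 2 * √3 * exp t - VV t)
      (2 * √3 * (exp t) - pA t) t := by
    intro t
    exact ((Real.hasDerivAt_exp t).const_mul _).sub (VV_deriv t)
  have hm : Monotone (fun t => 2 * √3 * exp t - VV t) := by
    apply monotone_of_deriv_nonneg
    · intro t; exact (hd t).differentiableAt
    · intro t
      rw [(hd t).deriv]
      have := pA_le' t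
      linarith
  have h := hm hs
  have h0 : VV 0 = 0 := by simp [VV]
  simp only [h0, Real.exp_zero] at h
  have : 0 ≤ 2 * √3 * exp (s) := by positivity
  linarith

lemma WW_le (s : ℝ) : WW s ≤ π / 6 * |s| := by
  have h : ‖∫ t in (0:ℝ)..s, pB t‖ ≤ π / 6 * |s - 0| := by
    apply intervalIntegral.norm_integral_le_of_norm_le_const
    intro t _
    rw [Real.norm_eq_abs]
    exact pB_abs t
  rw [sub_zero] at h
  exact (le_abs_self _).trans h

variable (N : ℕ)

/-- the constants `γ_i` -/
noncomputable def ga (i : ℕ) : ℝ := π * (i + 1 / 2) + (N - 1) * (π / 6)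

/-- the energy -/
noncomputable def JJ (s : Fin N → ℝ) : ℝ :=
  (2 * N - 1) * ∑ i, VV (s i) - (1 / 2) * ∑ i, ∑ j, WW (s i - s j) - ∑ i : Fin N, ga N i * s i

lemma JJ_cont : Continuous (JJ N) := by
  unfold JJ
  have h1 : Continuous fun s : Fin N → ℝ => ∑ i, VV (s i) :=
    continuous_finsetSum _ fun i _ => VV_cont.comp (continuous_apply i)
  have h2 : Continuous fun s : Fin N → ℝ => ∑ i, ∑ j, WW (s i - s j) :=
    continuous_finsetSum _ fun i _ => continuous_finsetSum _ fun j _ =>
      WW_cont.comp ((continuous_apply i).sub (continuous_apply j))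
  fun_prop

lemma sum_abs_sub (s : Fin N → ℝ) :
    ∑ i, ∑ j, |s i - s j| ≤ 2 * (N - 1) * ∑ i, |s i| := by
  have h : ∀ i j : Fin N, |s i - s j| ≤ |s i| + |s j| - (if i = j then 2 * |s i| else 0) := by
    intro i j
    split_ifs with h
    · subst h; simp; ring_nf; rfl
    · rw [sub_zero]; exact abs_sub _ _
  calc ∑ i, ∑ j, |s i - s j| ≤ ∑ i, ∑ j, (|s i| + |s j| - (if i = j then 2 * |s i| else 0)) :=
        Finset.sum_le_sum fun i _ => Finset.sum_le_sum fun j _ => h i j
    _ = 2 * (N - 1) * ∑ i, |s i| := by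
        simp only [Finset.sum_sub_distrib, Finset.sum_add_distrib, Finset.sum_const,
          Finset.card_univ, Fintype.card_fin, Finset.sum_ite_eq, Finset.mem_univ, if_true,
          nsmul_eq_mul]
        rw [← Finset.mul_sum, ← Finset.mul_sum]
        ring

lemma JJ_ge (hN : 1 ≤ N) (s : Fin N → ℝ) :
    π / 6 * ∑ i, |s i| - (2 * N - 1) * (N * (2 * √3)) ≤ JJ N s := by
  have hpi := Real.pi_pos
  have hN' : (1 : ℝ) ≤ N := by exact_mod_cast hN
  have h1 : ∀ i, (2 * (N:ℝ) - 1) * (2 * π / 3 * max (s i) 0 - 2 * √3) ≤ (2 * N - 1) * VV (s i) := by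
    intro i
    apply mul_le_mul_of_nonneg_left _ (by linarith)
    rcases le_total 0 (s i) with h | h
    · rw [max_eq_left h]; exact VV_ge_pos _ h
    · rw [max_eq_right h]
      have := VV_ge_neg _ h
      linarith
  have h2 : ∑ i, ∑ j, WW (s i - s j) ≤ π / 6 * (2 * (N - 1) * ∑ i, |s i|) := by
    calc ∑ i, ∑ j, WW (s i - s j) ≤ ∑ i, ∑ j, π / 6 * |s i - s j| :=
          Finset.sum_le_sum fun i _ => Finset.sum_le_sum fun j _ => WW_le _
      _ = π / 6 * ∑ i, ∑ j, |s i - s j| := by
          simp only [Finset.mul_sum]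
      _ ≤ _ := mul_le_mul_of_nonneg_left (sum_abs_sub N s) (by positivity)
  have h3 : ∀ i : Fin N, π / 6 * |s i| ≤ (2 * (N:ℝ) - 1) * (2 * π / 3 * max (s i) 0)
      - π / 6 * (N - 1) * |s i| - ga N i * s i := by
    intro i
    have hi : ((i : ℕ) : ℝ) ≤ N - 1 := by
      have : (i : ℕ) + 1 ≤ N := i.2
      have : (((i : ℕ) : ℝ)) + 1 ≤ N := by exact_mod_cast this
      linarith
    have hi0 : (0 : ℝ) ≤ ((i : ℕ) : ℝ) := by positivity
    unfold ga
    rcases le_total 0 (s i) with h | h
    · rw [max_eq_left h, abs_of_nonneg h]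
      nlinarith [mul_nonneg hpi.le h, mul_nonneg (mul_nonneg hpi.le h) (sub_nonneg.mpr hi)]
    · rw [max_eq_right h, abs_of_nonpos h]
      nlinarith [mul_nonneg hpi.le (neg_nonneg.mpr h), mul_nonneg (mul_nonneg hpi.le (neg_nonneg.mpr h)) hi0]
  have h4 : ∑ i, π / 6 * |s i| ≤ ∑ i, ((2 * (N:ℝ) - 1) * (2 * π / 3 * max (s i) 0)
      - π / 6 * (N - 1) * |s i| - ga N i * s i) := Finset.sum_le_sum fun i _ => h3 i
  have h5 : ∑ i, (2 * (N:ℝ) - 1) * (2 * π / 3 * max (s i) 0 - 2 * √3)
      ≤ ∑ i, (2 * (N:ℝ) - 1) * VV (s i) := Finset.sum_le_sum fun i _ => h1 i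
  have h6 : ∑ i, (2 * (N:ℝ) - 1) * (2 * π / 3 * max (s i) 0 - 2 * √3)
      = ∑ i, (2 * (N:ℝ) - 1) * (2 * π / 3 * max (s i) 0) - (2 * N - 1) * (N * (2 * √3)) := by
    simp only [mul_sub, Finset.sum_sub_distrib, Finset.sum_const, Finset.card_univ,
      Fintype.card_fin, nsmul_eq_mul]
    ring
  rw [h6] at h5
  simp only [Finset.sum_sub_distrib, ← Finset.mul_sum] at h4 h5
  unfold JJ
  linarith

lemma JJ_min (hN : 1 ≤ N) : ∃ s : Fin N → ℝ, ∀ t, JJ N s ≤ JJ N t := by
  apply (JJ_cont N).exists_forall_le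
  have h1 : ∀ s : Fin N → ℝ, π / 6 * ‖s‖ - (2 * N - 1) * (N * (2 * √3)) ≤ JJ N s := by
    intro s
    refine le_trans ?_ (JJ_ge N hN s)
    have : ‖s‖ ≤ ∑ i, |s i| := by
      rw [pi_norm_le_iff_of_nonneg (Finset.sum_nonneg fun i _ => abs_nonneg _)]
      intro i
      rw [Real.norm_eq_abs]
      exact Finset.single_le_sum (f := fun i => |s i|) (fun i _ => abs_nonneg _) (Finset.mem_univ i)
    have := mul_le_mul_of_nonneg_left this (show 0 ≤ π / 6 by positivity)
    linarith
  apply Filter.tendsto_atTop_mono h1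
  apply Filter.tendsto_atTop_add_const_right
  exact (tendsto_norm_cocompact_atTop).const_mul_atTop (by positivity)

lemma WW_even (s : ℝ) : WW (-s) = WW s := by
  unfold WW
  have h := intervalIntegral.integral_comp_neg (a := 0) (b := s) (fun t => pB t)
  simp only [neg_zero] at h
  rw [intervalIntegral.integral_symm, ← h]
  rw [← intervalIntegral.integral_neg]
  congr 1
  ext t
  rw [pB_neg, neg_neg]

lemma JJ_crit (s : Fin N → ℝ) (hs : ∀ t, JJ N s ≤ JJ N t) (k : Fin N) :
    (2 * N - 1) * pA (s k) - ∑ j, pB (s k - s j) = ga N k := by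
  set d : Fin N → ℝ := fun i => if i = k then 1 else 0 with hd
  have h1 : ∀ i, HasDerivAt (fun t : ℝ => VV (s i + t * d i)) (pA (s i) * d i) 0 := by
    intro i
    have := (VV_deriv (s i + 0 * d i)).comp (0:ℝ)
      (((hasDerivAt_id (0:ℝ)).mul_const (d i)).const_add (s i))
    simpa [Function.comp_def] using this
  have h2 : ∀ i j, HasDerivAt (fun t : ℝ => WW ((s i + t * d i) - (s j + t * d j)))
      (pB (s i - s j) * (d i - d j)) 0 := by
    intro i j
    have := (WW_deriv ((s i + 0 * d i) - (s j + 0 * d j))).comp (0:ℝ)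
      ((((hasDerivAt_id (0:ℝ)).mul_const (d i)).const_add (s i)).fun_sub
      (((hasDerivAt_id (0:ℝ)).mul_const (d j)).const_add (s j)))
    simpa [Function.comp_def] using this
  have h3 : ∀ i : Fin N, HasDerivAt (fun t : ℝ => ga N i * (s i + t * d i)) (ga N i * (d i)) 0 := by
    intro i
    have := ((((hasDerivAt_id (0:ℝ)).mul_const (d i)).const_add (s i)).const_mul (ga N i))
    simpa using this
  have hJ : HasDerivAt (fun t : ℝ => JJ N (fun i => s i + t * d i))
      ((2 * N - 1) * ∑ i, pA (s i) * d i - (1 / 2) * ∑ i, ∑ j, pB (s i - s j) * (d i - d j)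
        - ∑ i : Fin N, ga N i * (d i)) 0 := by
    unfold JJ
    have g1 : HasDerivAt (fun t : ℝ => ∑ i, VV (s i + t * d i)) (∑ i, pA (s i) * d i) 0 :=
      HasDerivAt.fun_sum fun i _ => h1 i
    have g2 : HasDerivAt (fun t : ℝ => ∑ i, ∑ j, WW ((s i + t * d i) - (s j + t * d j)))
        (∑ i, ∑ j, pB (s i - s j) * (d i - d j)) 0 :=
      HasDerivAt.fun_sum fun i _ => HasDerivAt.fun_sum fun j _ => h2 i j
    have g3 : HasDerivAt (fun t : ℝ => ∑ i : Fin N, ga N i * (s i + t * d i))
        (∑ i : Fin N, ga N i * (d i)) 0 :=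
      HasDerivAt.fun_sum fun i _ => h3 i
    exact ((g1.const_mul _).fun_sub (g2.const_mul _)).fun_sub g3
  have hmin : IsLocalMin (fun t : ℝ => JJ N (fun i => s i + t * d i)) 0 := by
    apply Filter.Eventually.of_forall
    intro t
    simp only [zero_mul, add_zero]
    exact hs _
  have h0 := hmin.hasDerivAt_eq_zero hJ
  have e1 : ∑ i, pA (s i) * d i = pA (s k) := by simp [hd]
  have e3 : ∑ i : Fin N, ga N i * (d i) = ga N k := by simp [hd]
  have e2 : ∑ i, ∑ j, pB (s i - s j) * (d i - d j) = 2 * ∑ j, pB (s k - s j) := by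
    simp only [mul_sub, Finset.sum_sub_distrib]
    have a1 : ∑ i, ∑ j, pB (s i - s j) * d i = ∑ j, pB (s k - s j) := by
      simp only [← Finset.sum_mul]
      simp [hd]
    have a2 : ∑ i, ∑ j, pB (s i - s j) * d j = - ∑ j, pB (s k - s j) := by
      rw [← Finset.sum_neg_distrib]
      apply Finset.sum_congr rfl
      intro i _
      simp only [hd, mul_ite, mul_one, mul_zero, Finset.sum_ite_eq', Finset.mem_univ, if_true]
      rw [← pB_neg]
      congr 1; ring
    rw [a1, a2]; ring
  rw [e1, e2, e3] at h0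
  linarith

lemma JJ_perm (s : Fin N → ℝ) (σ : Equiv.Perm (Fin N)) :
    JJ N (fun i => s (σ i)) = JJ N s + ∑ i : Fin N, ga N i * s i - ∑ i : Fin N, ga N i * s (σ i) := by
  unfold JJ
  have h1 : ∑ i, VV (s (σ i)) = ∑ i, VV (s i) := Equiv.sum_comp σ (fun i => VV (s i))
  have h2 : ∑ i, ∑ j, WW (s (σ i) - s (σ j)) = ∑ i, ∑ j, WW (s i - s j) := by
    rw [← Equiv.sum_comp σ (fun i => ∑ j, WW (s i - s j))]
    apply Finset.sum_congr rfl
    intro i _
    exact Equiv.sum_comp σ (fun j => WW (s (σ i) - s j))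
  rw [h1, h2]; ring

lemma JJ_strictMono (s : Fin N → ℝ) (hs : ∀ t, JJ N s ≤ JJ N t) : StrictMono s := by
  intro j k hjk
  have hg : ga N j < ga N k := by
    unfold ga
    have : ((j : ℕ) : ℝ) < ((k : ℕ) : ℝ) := by exact_mod_cast hjk
    have := mul_lt_mul_of_pos_left this Real.pi_pos
    linarith
  by_contra hcon
  push Not at hcon
  rcases hcon.lt_or_eq with h | h
  · have h1 := hs (fun i => s (Equiv.swap j k i))
    rw [JJ_perm] at h1
    have h2 : ∑ i : Fin N, ga N i * s (Equiv.swap j k i) - ∑ i : Fin N, ga N i * s i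
        = (ga N k - ga N j) * (s j - s k) := by
      rw [← Finset.sum_sub_distrib]
      have : ∀ i : Fin N, ga N i * s (Equiv.swap j k i) - ga N i * s i
          = (if i = j then ga N j * (s k - s j) else 0) + (if i = k then ga N k * (s j - s k) else 0) := by
        intro i
        by_cases hij : i = j
        · subst hij
          rw [Equiv.swap_apply_left, if_pos rfl, if_neg hjk.ne]; ring
        · by_cases hik : i = k
          · subst hik
            rw [Equiv.swap_apply_right, if_neg hij, if_pos rfl]; ring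
          · rw [Equiv.swap_apply_of_ne_of_ne hij hik, if_neg hij, if_neg hik]; ring
      simp only [this, Finset.sum_add_distrib, Finset.sum_ite_eq', Finset.mem_univ, if_true]
      ring
    have h3 := mul_pos (sub_pos.mpr hg) (sub_pos.mpr h)
    linarith
  · have h1 := JJ_crit N s hs j
    have h2 := JJ_crit N s hs k
    rw [h] at h2
    linarith

/-- existence of the critical configuration -/
theorem exists_config (hN : 1 ≤ N) : ∃ s : Fin N → ℝ, StrictMono s ∧
    ∀ k : Fin N, (2 * N - 1) * pA (s k) - ∑ j ∈ Finset.univ.erase k, (pB (s k - s j) + π / 6)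
      = π * ((k : ℕ) + 1 / 2) := by
  obtain ⟨s, hs⟩ := JJ_min N hN
  refine ⟨s, JJ_strictMono N s hs, fun k => ?_⟩
  have h := JJ_crit N s hs k
  have h1 : ∑ j, pB (s k - s j) = ∑ j ∈ Finset.univ.erase k, pB (s k - s j) := by
    rw [← Finset.add_sum_erase _ _ (Finset.mem_univ k)]
    simp [pB_zero]
  rw [h1] at h
  rw [Finset.sum_add_distrib, Finset.sum_const, Finset.card_erase_of_mem (Finset.mem_univ k),
    Finset.card_univ, Fintype.card_fin, nsmul_eq_mul, Nat.cast_sub hN]
  unfold ga at h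
  push_cast
  linarith

end Pool.Agent.V1174.FF
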