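import Mathlib
import Pool.Agent.V1174.FF.Min

/-! Finite configurations with positive masses. -/

namespace Pool.Agent.V1174.FF
open Finset

lemma om_sq : om ^ 2 = om - 1 := by
  have h := s3
  apply Complex.ext
  · simp [om, pow_two]; nlinarith
  · simp [om, pow_two]; ring

/-- the quadratic `1 - w + w²` -/
noncomputable def q (w : ℂ) : ℂ := 1 - w + w ^ 2

lemma q_om_mul (t : ℂ) : q (om * t) = (1 - t) * (1 - om ^ 2 * t) := by
  have h := om_sq
  unfold q
  linear_combination t * h

lemma one_sub_two_om : 1 - 2 * om = -(Complex.I * (√3 : ℝ)) := by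
  apply Complex.ext
  · simp [om]
  · simp [om]; ring

/-- a finite configuration -/
structure Cfg (n : ℕ) where
  u : Fin (n + 1) → ℝ
  m : Fin (n + 1) → ℝ
  κ : ℝ
  u0 : u 0 = 1
  upos : ∀ k, 0 < u k
  anti : StrictAnti u
  mpos : ∀ k, 0 < m k
  κpos : 0 < κ
  hm : ∀ k, (m k : ℂ) * ((1 - 2 * om) * ∏ j ∈ univ.erase k, q (om * ((u j / u k : ℝ) : ℂ)))
    = (1 - ((κ / u k : ℝ) : ℂ) * om) ^ (2 * n + 1)

lemma prod_sign (n : ℕ) (k : Fin (n + 1)) (s : Fin (n + 1) → ℝ) (hs : StrictMono s) :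
    ∏ j ∈ univ.erase k, (1 - Real.exp (s k - s j))
      = (-1) ^ (k : ℕ) * ∏ j ∈ univ.erase k, |1 - Real.exp (s k - s j)| := by
  have h1 : ∀ j ∈ univ.erase k, (1 - Real.exp (s k - s j))
      = (if j < k then (-1 : ℝ) else 1) * |1 - Real.exp (s k - s j)| := by
    intro j hj
    split_ifs with h
    · have : 1 < Real.exp (s k - s j) := by
        rw [Real.one_lt_exp_iff]; linarith [hs h]
      rw [abs_of_neg (by linarith)]; ring
    · have hne : j ≠ k := (Finset.mem_erase.mp hj).1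
      have hk : k < j := lt_of_le_of_ne (not_lt.mp h) (Ne.symm hne)
      have : Real.exp (s k - s j) < 1 := by
        rw [Real.exp_lt_one_iff]; linarith [hs hk]
      rw [abs_of_pos (by linarith)]; ring
  rw [Finset.prod_congr rfl h1, Finset.prod_mul_distrib]
  congr 1
  rw [Finset.prod_ite]
  simp only [Finset.prod_const, one_pow, mul_one]
  congr 1
  have : (univ.erase k).filter (fun j => j < k) = Finset.Iio k := by
    ext j
    simp only [Finset.mem_filter, Finset.mem_erase, Finset.mem_univ, and_true, Finset.mem_Iio]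
    exact ⟨fun h => h.2, fun h => ⟨h.ne, h⟩⟩
  rw [this, Fin.card_Iio]

theorem exists_Cfg (n : ℕ) : Nonempty (Cfg n) := by
  obtain ⟨s, hs, hc⟩ := exists_config (n + 1) (by omega)
  have key : ∀ k : Fin (n + 1), ∃ m : ℝ, 0 < m ∧
      (m : ℂ) * ((1 - 2 * om) * ∏ j ∈ univ.erase k, q (om * ((Real.exp (s k - s j) : ℝ) : ℂ)))
        = (1 - ((Real.exp (s k) : ℝ) : ℂ) * om) ^ (2 * n + 1) := by
    intro k
    obtain ⟨ρA, hρA, hA⟩ := phA (s k)
    choose ρB hρB hB using fun j : Fin (n + 1) => phB (s k - s j)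
    have hpos : 0 < ∏ j ∈ univ.erase k, |1 - Real.exp (s k - s j)| := by
      apply Finset.prod_pos
      intro j hj
      have hne : j ≠ k := (Finset.mem_erase.mp hj).1
      rw [abs_pos, sub_ne_zero]
      intro h
      have h1 : s k - s j = 0 := by
        rw [← Real.exp_eq_one_iff]; exact h.symm
      exact hne (hs.injective (by linarith))
    have hpos2 : 0 < ∏ j ∈ univ.erase k, ρB j := Finset.prod_pos fun j _ => hρB j
    refine ⟨ρA ^ (2 * n + 1) / (√3 * ((∏ j ∈ univ.erase k, |1 - Real.exp (s k - s j)|)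
      * ∏ j ∈ univ.erase k, ρB j)), by have := s3pos; positivity, ?_⟩
    have hprod : ∏ j ∈ univ.erase k, q (om * ((Real.exp (s k - s j) : ℝ) : ℂ))
        = (((-1) ^ (k : ℕ) * ∏ j ∈ univ.erase k, |1 - Real.exp (s k - s j)| : ℝ) : ℂ)
          * (((∏ j ∈ univ.erase k, ρB j : ℝ) : ℂ)
            * Complex.exp (-(Complex.I * ((∑ j ∈ univ.erase k, (pB (s k - s j) + Real.pi / 6) : ℝ) : ℂ)))) := by
      rw [← prod_sign n k s hs]
      have h1 : ∀ j ∈ univ.erase k, q (om * ((Real.exp (s k - s j) : ℝ) : ℂ))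
          = ((1 - Real.exp (s k - s j) : ℝ) : ℂ) * ((ρB j : ℂ)
            * Complex.exp (-(Complex.I * ((pB (s k - s j) + Real.pi / 6 : ℝ) : ℂ)))) := by
        intro j _
        rw [q_om_mul, ← hB j]
        push_cast; ring
      rw [Finset.prod_congr rfl h1, Finset.prod_mul_distrib, Finset.prod_mul_distrib]
      push_cast
      congr 2
      rw [← Complex.exp_sum]
      congr 1
      rw [Finset.sum_neg_distrib, Finset.mul_sum]
    have hpow : (1 - ((Real.exp (s k) : ℝ) : ℂ) * om) ^ (2 * n + 1)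
        = ((ρA ^ (2 * n + 1) : ℝ) : ℂ)
          * Complex.exp (-(Complex.I * (((2 * n + 1) * pA (s k) : ℝ) : ℂ))) := by
      rw [hA, mul_pow, ← Complex.exp_nat_mul]
      push_cast
      congr 2
      ring
    have hphase : Complex.exp (-(Complex.I * (((2 * n + 1) * pA (s k) : ℝ) : ℂ)))
        = Complex.exp (-(Complex.I * ((∑ j ∈ univ.erase k, (pB (s k - s j) + Real.pi / 6) : ℝ) : ℂ)))
          * ((-1) ^ (k : ℕ) * (-Complex.I)) := by
      have h1 : (2 * n + 1) * pA (s k) = ∑ j ∈ univ.erase k, (pB (s k - s j) + Real.pi / 6)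
          + Real.pi * ((k : ℕ) + 1 / 2) := by
        have := hc k
        push_cast at this ⊢
        linarith
      rw [h1]
      have h2 : (-(Complex.I * ((∑ j ∈ univ.erase k, (pB (s k - s j) + Real.pi / 6)
          + Real.pi * ((k : ℕ) + 1 / 2) : ℝ) : ℂ)))
          = -(Complex.I * ((∑ j ∈ univ.erase k, (pB (s k - s j) + Real.pi / 6) : ℝ) : ℂ))
            + ((k : ℕ) * (-(Real.pi * Complex.I)) + (-(Real.pi / 2 * Complex.I))) := by
        push_cast; ring
      rw [h2, Complex.exp_add]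
      congr 1
      rw [Complex.exp_add, Complex.exp_nat_mul]
      congr 1
      · congr 1
        rw [Complex.exp_neg, Complex.exp_pi_mul_I]; norm_num
      · rw [Complex.exp_neg, Complex.exp_pi_div_two_mul_I, Complex.inv_I]
    rw [hpow, hphase, hprod, one_sub_two_om]
    generalize Complex.exp (-(Complex.I * ((∑ j ∈ univ.erase k,
      (pB (s k - s j) + Real.pi / 6) : ℝ) : ℂ))) = E
    have hA1 : ((∏ j ∈ univ.erase k, |1 - Real.exp (s k - s j)| : ℝ) : ℂ) ≠ 0 := by
      exact_mod_cast hpos.ne'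
    have hA2 : ((∏ j ∈ univ.erase k, ρB j : ℝ) : ℂ) ≠ 0 := by exact_mod_cast hpos2.ne'
    have hA3 : ((√3 : ℝ) : ℂ) ≠ 0 := by exact_mod_cast s3pos.ne'
    rw [Complex.ofReal_div, Complex.ofReal_mul, Complex.ofReal_mul, Complex.ofReal_mul,
      Complex.ofReal_pow (-1)]
    push_cast at hA1 hA2 ⊢
    field_simp
  choose m hm0 hm using key
  refine ⟨⟨fun k => Real.exp (s 0 - s k), m, Real.exp (s 0), by simp, fun k => Real.exp_pos _,
    ?_, hm0, Real.exp_pos _, ?_⟩⟩
  · intro i j hij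
    show Real.exp (s 0 - s j) < Real.exp (s 0 - s i)
    rw [Real.exp_lt_exp]
    linarith [hs hij]
  · intro k
    have h1 : ∀ j, Real.exp (s 0 - s j) / Real.exp (s 0 - s k) = Real.exp (s k - s j) := by
      intro j; rw [← Real.exp_sub]; congr 1; ring
    have h2 : Real.exp (s 0) / Real.exp (s 0 - s k) = Real.exp (s k) := by
      rw [← Real.exp_sub]; congr 1; ring
    simp only [h1, h2]
    exact hm k

end Pool.Agent.V1174.FF
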