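import Mathlib
import Pool.Agent.V1174.FF.Cfg

/-! Identities and bounds for finite configurations. -/

namespace Pool.Agent.V1174.FF
open Finset Polynomial

/-- polynomial version of `q (a z)` -/
noncomputable def qP (a : ℂ) : ℂ[X] := 1 - C a * X + C (a ^ 2) * X ^ 2

lemma qP_eval (a z : ℂ) : (qP a).eval z = q (z * a) := by
  simp [qP, q]; ring

lemma qP_natDegree (a : ℂ) : (qP a).natDegree ≤ 2 := by
  unfold qP
  compute_degree

lemma coeff_mul_qP0 (p : ℂ[X]) (a : ℂ) : (p * qP a).coeff 0 = p.coeff 0 := by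
  simp [qP, mul_coeff_zero]

lemma mul_qP (p : ℂ[X]) (a : ℂ) : p * qP a = p - C a * (p * X) + C (a ^ 2) * (p * X ^ 2) := by
  unfold qP; ring

lemma coeff_mul_qP1 (p : ℂ[X]) (a : ℂ) : (p * qP a).coeff 1 = p.coeff 1 - a * p.coeff 0 := by
  rw [mul_qP, coeff_add, coeff_sub, coeff_C_mul, coeff_C_mul, coeff_mul_X_pow']
  simp

lemma coeff_mul_qP2 (p : ℂ[X]) (a : ℂ) :
    (p * qP a).coeff 2 = p.coeff 2 - a * p.coeff 1 + a ^ 2 * p.coeff 0 := by
  rw [mul_qP, coeff_add, coeff_sub, coeff_C_mul, coeff_C_mul, coeff_mul_X_pow']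
  simp

lemma coeff_mul_lin1 (p : ℂ[X]) (a : ℂ) :
    (p * (1 - C a * X)).coeff 1 = p.coeff 1 - a * p.coeff 0 := by
  rw [show p * (1 - C a * X) = p - C a * (p * X) by ring, coeff_sub, coeff_C_mul]
  simp

lemma coeff_mul_lin2 (p : ℂ[X]) (a : ℂ) :
    (p * (1 - C a * X)).coeff 2 = p.coeff 2 - a * p.coeff 1 := by
  rw [show p * (1 - C a * X) = p - C a * (p * X) by ring, coeff_sub, coeff_C_mul]
  simp

lemma coeff_mul_lin0 (p : ℂ[X]) (a : ℂ) :
    (p * (1 - C a * X)).coeff 0 = p.coeff 0 := by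
  simp [mul_coeff_zero]

lemma prod_coeffs {ι : Type*} [DecidableEq ι] (s : Finset ι) (a : ι → ℂ) :
    (∏ j ∈ s, qP (a j)).coeff 0 = 1 ∧ (∏ j ∈ s, qP (a j)).coeff 1 = - ∑ j ∈ s, a j ∧
    (∏ j ∈ s, qP (a j)).coeff 2 = ((∑ j ∈ s, a j) ^ 2 + ∑ j ∈ s, a j ^ 2) / 2 := by
  induction s using Finset.induction_on with
  | empty => simp [coeff_one]
  | insert i s hi ih =>
    obtain ⟨h0, h1, h2⟩ := ih
    rw [Finset.prod_insert hi, mul_comm, coeff_mul_qP0, coeff_mul_qP1, coeff_mul_qP2, h0, h1, h2,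
      Finset.sum_insert hi, Finset.sum_insert hi]
    refine ⟨rfl, by ring, by ring⟩

lemma pow_coeffs (a : ℂ) (M : ℕ) :
    ((1 - C a * X) ^ M : ℂ[X]).coeff 0 = 1 ∧ ((1 - C a * X) ^ M : ℂ[X]).coeff 1 = - M * a ∧
    ((1 - C a * X) ^ M : ℂ[X]).coeff 2 = M * (M - 1) / 2 * a ^ 2 := by
  induction M with
  | zero => simp [coeff_one]
  | succ M ih =>
    obtain ⟨h0, h1, h2⟩ := ih
    rw [pow_succ, coeff_mul_lin0, coeff_mul_lin1, coeff_mul_lin2, h0, h1, h2]
    push_cast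
    refine ⟨rfl, by ring, by ring⟩

variable {n : ℕ} (c : Cfg n)

/-- the nodes -/
noncomputable def node : Fin (n + 1) ⊕ Fin (n + 1) → ℂ :=
  Sum.elim (fun k => om / (c.u k : ℂ)) (fun k => (starRingEnd ℂ) om / (c.u k : ℂ))

lemma om_im : om.im = √3 / 2 := rfl
lemma om_re : om.re = 1 / 2 := rfl

lemma node_inj : Function.Injective (node c) := by
  have him : ∀ k, (om / (c.u k : ℂ)).im = √3 / 2 / c.u k := by
    intro k; rw [Complex.div_ofReal_im, om_im]
  have him' : ∀ k, ((starRingEnd ℂ) om / (c.u k : ℂ)).im = -(√3 / 2 / c.u k) := by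
    intro k; rw [Complex.div_ofReal_im, Complex.conj_im, om_im]; ring
  have h3 := s3pos
  have hinj : ∀ i j, √3 / 2 / c.u i = √3 / 2 / c.u j → i = j := by
    intro i j h
    have hi := c.upos i
    have hj := c.upos j
    rw [div_eq_div_iff hi.ne' hj.ne'] at h
    exact c.anti.injective (mul_left_cancel₀ (by positivity) h.symm)
  rintro (i | i) (j | j) h
  · have := congrArg Complex.im h
    simp only [node, Sum.elim_inl] at this
    rw [him, him] at this
    rw [hinj i j this]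
  · have := congrArg Complex.im h
    simp only [node, Sum.elim_inl, Sum.elim_inr] at this
    rw [him, him'] at this
    have hi : 0 < √3 / 2 / c.u i := by have := c.upos i; positivity
    have hj : 0 < √3 / 2 / c.u j := by have := c.upos j; positivity
    linarith
  · have := congrArg Complex.im h
    simp only [node, Sum.elim_inl, Sum.elim_inr] at this
    rw [him, him'] at this
    have hi : 0 < √3 / 2 / c.u i := by have := c.upos i; positivity
    have hj : 0 < √3 / 2 / c.u j := by have := c.upos j; positivity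
    linarith
  · have := congrArg Complex.im h
    simp only [node, Sum.elim_inr] at this
    rw [him', him'] at this
    rw [hinj i j (by linarith)]

/-- the difference polynomial -/
noncomputable def dP : ℂ[X] :=
  ∑ k, C (c.m k : ℂ) * ((∏ j ∈ univ.erase k, qP (c.u j)) * (1 - C (2 * (c.u k : ℂ)) * X))
    - (1 - C (c.κ : ℂ) * X) ^ (2 * n + 1)

lemma lin_natDegree (a : ℂ) : (1 - C a * X : ℂ[X]).natDegree ≤ 1 := by
  compute_degree

lemma dP_natDegree : (dP c).natDegree ≤ 2 * n + 1 := by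
  unfold dP
  refine (natDegree_sub_le _ _).trans (max_le ?_ ?_)
  · apply natDegree_sum_le_of_forall_le
    intro k _
    refine (natDegree_C_mul_le _ _).trans ?_
    refine natDegree_mul_le.trans ?_
    have h1 : (∏ j ∈ univ.erase k, qP (c.u j : ℂ)).natDegree ≤ 2 * n := by
      refine (natDegree_prod_le _ _).trans ?_
      refine (Finset.sum_le_sum fun j _ => qP_natDegree _).trans ?_
      rw [Finset.sum_const, Finset.card_erase_of_mem (Finset.mem_univ k), Finset.card_univ,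
        Fintype.card_fin, smul_eq_mul]
      omega
    have h2 := lin_natDegree (2 * (c.u k : ℂ))
    omega
  · refine natDegree_pow_le.trans ?_
    have h2 := lin_natDegree (c.κ : ℂ)
    nlinarith

lemma q_om : q om = 0 := by
  have h := om_sq
  unfold q
  linear_combination h

lemma q_conj (w : ℂ) : q ((starRingEnd ℂ) w) = (starRingEnd ℂ) (q w) := by
  simp [q]

lemma dP_eval (z : ℂ) : (dP c).eval z
    = ∑ k, (c.m k : ℂ) * ((∏ j ∈ univ.erase k, q (z * c.u j)) * (1 - 2 * (c.u k : ℂ) * z))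
      - (1 - c.κ * z) ^ (2 * n + 1) := by
  simp only [dP, eval_sub, eval_pow, eval_one, eval_mul, eval_C, eval_X, eval_finsetSum,
    eval_prod, qP_eval]

lemma dP_eval_conj (z : ℂ) : (dP c).eval ((starRingEnd ℂ) z) = (starRingEnd ℂ) ((dP c).eval z) := by
  rw [dP_eval, dP_eval]
  simp only [map_sub, map_sum, map_mul, map_pow, map_one, map_prod, Complex.conj_ofReal,
    ← q_conj, map_ofNat]

lemma dP_node_inl (k : Fin (n + 1)) : (dP c).eval (om / (c.u k : ℂ)) = 0 := by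
  rw [dP_eval]
  have hk : (c.u k : ℂ) ≠ 0 := by exact_mod_cast (c.upos k).ne'
  rw [Finset.sum_eq_single k]
  · have h := c.hm k
    have e1 : ∀ j, om * ((c.u j / c.u k : ℝ) : ℂ) = om / (c.u k : ℂ) * c.u j := by
      intro j; push_cast; ring
    have e2 : ((c.κ / c.u k : ℝ) : ℂ) * om = c.κ * (om / (c.u k : ℂ)) := by
      push_cast; ring
    simp only [e1, e2] at h
    rw [← h]
    field_simp
    ring
  · intro i _ hik
    rw [Finset.prod_eq_zero (i := k)]
    · ring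
    · exact Finset.mem_erase.mpr ⟨Ne.symm hik, Finset.mem_univ _⟩
    · rw [div_mul_cancel₀ _ hk, q_om]
  · intro h; exact absurd (Finset.mem_univ _) h

lemma dP_zero : dP c = 0 := by
  apply Polynomial.eq_zero_of_natDegree_lt_card_of_eval_eq_zero (dP c) (node_inj c)
  · rintro (k | k)
    · exact dP_node_inl c k
    · show (dP c).eval ((starRingEnd ℂ) om / (c.u k : ℂ)) = 0
      have : (starRingEnd ℂ) om / (c.u k : ℂ) = (starRingEnd ℂ) (om / (c.u k : ℂ)) := by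
        rw [map_div₀, Complex.conj_ofReal]
      rw [this, dP_eval_conj, dP_node_inl, map_zero]
  · have := dP_natDegree c
    simp only [Fintype.card_sum, Fintype.card_fin]
    omega

/-- the kernel -/
noncomputable def τ (w : ℂ) : ℂ := (1 - 2 * w) / q w

theorem Cfg.identity (z : ℂ) (hz : ∀ k, q (z * c.u k) ≠ 0) :
    ∑ k, (c.m k : ℂ) * τ (z * c.u k) = (1 - c.κ * z) ^ (2 * n + 1) / ∏ k, q (z * c.u k) := by
  have h : (dP c).eval z = 0 := by rw [dP_zero]; simp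
  rw [dP_eval, sub_eq_zero] at h
  have hp : ∏ k, q (z * c.u k) ≠ 0 := Finset.prod_ne_zero_iff.mpr fun k _ => hz k
  rw [eq_div_iff hp, ← h, Finset.sum_mul]
  apply Finset.sum_congr rfl
  intro k _
  rw [← Finset.mul_prod_erase univ _ (Finset.mem_univ k)]
  unfold τ
  have := hz k
  field_simp

theorem Cfg.sum_m : ∑ k, c.m k = 1 := by
  have h : (dP c).eval 0 = 0 := by rw [dP_zero]; simp
  rw [dP_eval] at h
  simp [q] at h
  have : ((∑ k, c.m k : ℝ) : ℂ) = 1 := by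
    push_cast; linear_combination h
  exact_mod_cast this

theorem Cfg.coeffs : ((2 * n + 1 : ℕ) : ℝ) * c.κ = ∑ k, c.u k + ∑ k, c.m k * c.u k ∧
    ∑ k, c.u k ^ 2 + ((2 * n + 1 : ℕ) : ℝ) * c.κ ^ 2
      = 4 * ∑ k, c.m k * c.u k ^ 2 + (∑ k, c.m k * c.u k) ^ 2 := by
  have h1 : (dP c).coeff 1 = 0 := by rw [dP_zero]; simp
  have h2 : (dP c).coeff 2 = 0 := by rw [dP_zero]; simp
  obtain ⟨-, p1, p2⟩ := pow_coeffs (c.κ : ℂ) (2 * n + 1)
  have hS : ∀ k, ∑ j ∈ univ.erase k, (c.u j : ℂ) = ∑ j, (c.u j : ℂ) - c.u k := by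
    intro k; rw [← Finset.add_sum_erase _ _ (Finset.mem_univ k)]; ring
  have hS2 : ∀ k, ∑ j ∈ univ.erase k, (c.u j : ℂ) ^ 2 = ∑ j, (c.u j : ℂ) ^ 2 - (c.u k : ℂ) ^ 2 := by
    intro k; rw [← Finset.add_sum_erase _ _ (Finset.mem_univ k)]; ring
  have hsm : ∑ k, (c.m k : ℂ) = 1 := by exact_mod_cast c.sum_m
  unfold dP at h1 h2
  rw [coeff_sub, p1, finsetSum_coeff] at h1
  rw [coeff_sub, p2, finsetSum_coeff] at h2
  simp only [coeff_C_mul, coeff_mul_lin1, coeff_mul_lin2, prod_coeffs, hS, hS2] at h1 h2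
  have e1 : ∀ k, (c.m k : ℂ) * (-(∑ j, (c.u j : ℂ) - c.u k) - 2 * (c.u k : ℂ) * 1)
      = -(c.m k : ℂ) * (∑ j, (c.u j : ℂ)) - (c.m k : ℂ) * c.u k := by
    intro k; ring
  simp only [e1, Finset.sum_sub_distrib, ← Finset.sum_mul, Finset.sum_neg_distrib, hsm] at h1
  have e2 : ∀ k, (c.m k : ℂ) * (((∑ j, (c.u j : ℂ) - c.u k) ^ 2
      + (∑ j, (c.u j : ℂ) ^ 2 - (c.u k : ℂ) ^ 2)) / 2
      - 2 * (c.u k : ℂ) * -(∑ j, (c.u j : ℂ) - c.u k))
      = (c.m k : ℂ) * (((∑ j, (c.u j : ℂ)) ^ 2 + ∑ j, (c.u j : ℂ) ^ 2) / 2)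
        + (c.m k : ℂ) * c.u k * (∑ j, (c.u j : ℂ)) - 2 * ((c.m k : ℂ) * (c.u k : ℂ) ^ 2) := by
    intro k; ring
  simp only [e2, Finset.sum_sub_distrib, Finset.sum_add_distrib, ← Finset.sum_mul,
    ← Finset.mul_sum, hsm] at h2
  have g1 : (((2 * n + 1 : ℕ) : ℂ)) * (c.κ : ℂ) = ∑ k, (c.u k : ℂ) + ∑ k, (c.m k : ℂ) * (c.u k : ℂ) := by
    linear_combination h1
  have g2 : ∑ k, (c.u k : ℂ) ^ 2 + ((2 * n + 1 : ℕ) : ℂ) * (c.κ : ℂ) ^ 2
      = 4 * ∑ k, (c.m k : ℂ) * (c.u k : ℂ) ^ 2 + (∑ k, (c.m k : ℂ) * (c.u k : ℂ)) ^ 2 := by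
    linear_combination 2 * h2 + ((((2 * n + 1 : ℕ) : ℂ)) * (c.κ : ℂ) + ∑ k, (c.u k : ℂ)
      + ∑ k, (c.m k : ℂ) * (c.u k : ℂ)) * g1
  constructor
  · exact_mod_cast g1
  · exact_mod_cast g2

end Pool.Agent.V1174.FF
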