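import Mathlib
import Pool.Agent.V1174.FF.Bd

/-! Inequalities for finite configurations. -/

namespace Pool.Agent.V1174.FF
open Finset

lemma normSq_one_sub (ζ : ℂ) : ‖1 - ζ‖ ^ 2 = 1 - 2 * ζ.re + ‖ζ‖ ^ 2 := by
  rw [← Complex.normSq_eq_norm_sq, ← Complex.normSq_eq_norm_sq, Complex.normSq_apply,
    Complex.normSq_apply]
  simp; ring

lemma norm_one_sub_le (ζ : ℂ) : ‖1 - ζ‖ ≤ Real.exp (-ζ.re + ‖ζ‖ ^ 2 / 2) := by
  apply le_of_sq_le_sq _ (Real.exp_pos _).le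
  rw [normSq_one_sub, ← Real.exp_nat_mul]
  have h := Real.add_one_le_exp (((2 : ℕ) : ℝ) * (-ζ.re + ‖ζ‖ ^ 2 / 2))
  push_cast at h ⊢
  linarith

lemma norm_one_sub_ge (ζ : ℂ) (h : ‖ζ‖ ≤ 1 / 4) :
    Real.exp (-ζ.re - 11 * ‖ζ‖ ^ 2) ≤ ‖1 - ζ‖ := by
  apply le_of_sq_le_sq _ (norm_nonneg _)
  rw [normSq_one_sub, ← Real.exp_nat_mul]
  set y := 2 * ζ.re - ‖ζ‖ ^ 2 with hy
  have hre := Complex.abs_re_le_norm ζ
  have hre' := abs_le.mp hre
  have h0 := norm_nonneg ζ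
  have hy1 : y ≤ 3 / 4 := by nlinarith
  have hy2 : y ^ 2 ≤ (9 / 4 * ‖ζ‖) ^ 2 := by
    apply sq_le_sq'
    · nlinarith
    · nlinarith
  have hexp : Real.exp (-y - 4 * y ^ 2) ≤ 1 - y := by
    have h1 : 1 ≤ (1 - y) * (1 + y + 4 * y ^ 2) := by nlinarith [sq_nonneg y]
    have h2 := Real.add_one_le_exp (y + 4 * y ^ 2)
    have h3 : 1 ≤ (1 - y) * Real.exp (y + 4 * y ^ 2) := by
      refine h1.trans (mul_le_mul_of_nonneg_left (by linarith) (by linarith))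
    rw [show -y - 4 * y ^ 2 = -(y + 4 * y ^ 2) by ring, Real.exp_neg]
    exact inv_le_of_inv_le₀ (by linarith) (by
      rw [inv_le_iff_one_le_mul₀ (by linarith)]; linarith)
  have e1 : (1 - 2 * ζ.re + ‖ζ‖ ^ 2) = 1 - y := by rw [hy]; ring
  rw [e1]
  refine le_trans (Real.exp_le_exp.mpr ?_) hexp
  push_cast
  nlinarith

lemma om_norm : ‖om‖ = 1 := by
  rw [← sq_eq_sq₀ (norm_nonneg _) (by norm_num), ← Complex.normSq_eq_norm_sq, Complex.normSq_apply,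
    om_re, om_im]
  have := s3; nlinarith

lemma om_add_conj : om + (starRingEnd ℂ) om = 1 := by
  apply Complex.ext
  · simp [om]; norm_num
  · simp [om]

lemma om_mul_conj : om * (starRingEnd ℂ) om = 1 := by
  rw [Complex.mul_conj, Complex.normSq_eq_norm_sq, om_norm]; simp

lemma q_factor (w : ℂ) : q w = (1 - w * om) * (1 - w * (starRingEnd ℂ) om) := by
  unfold q
  have h1 := om_add_conj
  have h2 := om_mul_conj
  linear_combination w * h1 - w ^ 2 * h2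

lemma norm_q_le (w : ℂ) : ‖q w‖ ≤ Real.exp (-w.re + ‖w‖ ^ 2) := by
  rw [q_factor, norm_mul]
  have h1 := norm_one_sub_le (w * om)
  have h2 := norm_one_sub_le (w * (starRingEnd ℂ) om)
  have h3 : (w * om).re + (w * (starRingEnd ℂ) om).re = w.re := by
    rw [← Complex.add_re, ← mul_add, om_add_conj, mul_one]
  have h4 : ‖w * om‖ = ‖w‖ := by rw [norm_mul, om_norm, mul_one]
  have h5 : ‖w * (starRingEnd ℂ) om‖ = ‖w‖ := by
    rw [norm_mul, Complex.norm_conj, om_norm, mul_one]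
  calc ‖1 - w * om‖ * ‖1 - w * (starRingEnd ℂ) om‖
      ≤ Real.exp (-(w * om).re + ‖w * om‖ ^ 2 / 2)
        * Real.exp (-(w * (starRingEnd ℂ) om).re + ‖w * (starRingEnd ℂ) om‖ ^ 2 / 2) :=
        mul_le_mul h1 h2 (norm_nonneg _) (Real.exp_pos _).le
    _ = Real.exp (-w.re + ‖w‖ ^ 2) := by
        rw [← Real.exp_add, h4, h5, ← h3]; congr 1; ring

variable {n : ℕ} (c : Cfg n)

lemma Cfg.u_le_one (k : Fin (n + 1)) : c.u k ≤ 1 := by
  rw [← c.u0]; exact c.anti.antitone (Fin.zero_le k)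

lemma Cfg.e1_nonneg : 0 ≤ ∑ k, c.m k * c.u k :=
  Finset.sum_nonneg fun k _ => mul_nonneg (c.mpos k).le (c.upos k).le

lemma Cfg.e1_le : ∑ k, c.m k * c.u k ≤ 1 := by
  rw [← c.sum_m]
  apply Finset.sum_le_sum
  intro k _
  have := c.mpos k
  have := c.u_le_one k
  nlinarith

lemma Cfg.e2_le : ∑ k, c.m k * c.u k ^ 2 ≤ 1 := by
  rw [← c.sum_m]
  apply Finset.sum_le_sum
  intro k _
  have h1 := c.mpos k
  have h2 := c.u_le_one k
  have h3 := c.upos k
  have : c.u k ^ 2 ≤ 1 := pow_le_one₀ h3.le h2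
  nlinarith

lemma Cfg.five : ∑ k, c.u k ^ 2 + ((2 * n + 1 : ℕ) : ℝ) * c.κ ^ 2 ≤ 5 := by
  rw [c.coeffs.2]
  have h1 := c.e2_le
  have h2 := c.e1_le
  have h3 := c.e1_nonneg
  have : (∑ k, c.m k * c.u k) ^ 2 ≤ 1 := pow_le_one₀ h3 h2
  linarith

lemma Cfg.S2_nonneg : 0 ≤ ∑ k, c.u k ^ 2 := Finset.sum_nonneg fun k _ => sq_nonneg _

lemma Cfg.lower (z : ℂ) (hκ : c.κ * ‖z‖ ≤ 1 / 4) (hz : ∀ k, q (z * c.u k) ≠ 0) :
    Real.exp (-(‖z‖ + 55 * ‖z‖ ^ 2)) ≤ ‖∑ k, (c.m k : ℂ) * τ (z * c.u k)‖ := by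
  rw [c.identity z hz, norm_div, norm_pow, norm_prod]
  have hd : 0 < ∏ k, ‖q (z * c.u k)‖ := Finset.prod_pos fun k _ => norm_pos_iff.mpr (hz k)
  rw [le_div_iff₀ hd]
  have hB : ∏ k, ‖q (z * c.u k)‖ ≤ Real.exp (-(z.re) * ∑ k, c.u k + ‖z‖ ^ 2 * ∑ k, c.u k ^ 2) := by
    rw [Finset.mul_sum, Finset.mul_sum, ← Finset.sum_add_distrib, Real.exp_sum]
    apply Finset.prod_le_prod (fun k _ => norm_nonneg _)
    intro k _
    have h := norm_q_le (z * c.u k)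
    have e1 : (z * (c.u k : ℂ)).re = z.re * c.u k := Complex.re_mul_ofReal _ _
    have e2 : ‖z * (c.u k : ℂ)‖ = ‖z‖ * c.u k := by
      rw [norm_mul, Complex.norm_real, Real.norm_eq_abs, abs_of_pos (c.upos k)]
    rw [e1, e2] at h
    refine h.trans (le_of_eq ?_)
    congr 1; ring
  have hA : Real.exp (((2 * n + 1 : ℕ) : ℝ) * (-(c.κ * z.re) - 11 * (c.κ * ‖z‖) ^ 2))
      ≤ ‖1 - c.κ * z‖ ^ (2 * n + 1) := by
    rw [Real.exp_nat_mul]
    apply pow_le_pow_left₀ (Real.exp_pos _).le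
    have e2 : ‖(c.κ : ℂ) * z‖ = c.κ * ‖z‖ := by
      rw [norm_mul, Complex.norm_real, Real.norm_eq_abs, abs_of_pos c.κpos]
    have h := norm_one_sub_ge ((c.κ : ℂ) * z) (by rw [e2]; exact hκ)
    rw [e2, Complex.re_ofReal_mul] at h
    exact h
  refine le_trans ?_ hA
  refine le_trans (mul_le_mul_of_nonneg_left hB (Real.exp_pos _).le) ?_
  rw [← Real.exp_add]
  apply Real.exp_le_exp.mpr
  have h5 := c.five
  have h1 := c.coeffs.1
  have hre := abs_le.mp (Complex.abs_re_le_norm z)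
  have he1 := c.e1_le
  have he0 := c.e1_nonneg
  have hS2 := c.S2_nonneg
  have hz0 := norm_nonneg z
  set M : ℝ := ((2 * n + 1 : ℕ) : ℝ) with hM
  have hM0 : 0 ≤ M * c.κ ^ 2 := by positivity
  have e3 : M * (-(c.κ * z.re) - 11 * (c.κ * ‖z‖) ^ 2)
      = -(z.re) * (M * c.κ) - 11 * (M * c.κ ^ 2) * ‖z‖ ^ 2 := by ring
  rw [e3, h1]
  have h6 : (∑ k, c.m k * c.u k) * z.re ≤ ‖z‖ := by
    calc (∑ k, c.m k * c.u k) * z.re ≤ (∑ k, c.m k * c.u k) * ‖z‖ :=
          mul_le_mul_of_nonneg_left hre.2 he0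
      _ ≤ 1 * ‖z‖ := mul_le_mul_of_nonneg_right he1 hz0
      _ = ‖z‖ := one_mul _
  have h7 : (11 * (M * c.κ ^ 2) + ∑ k, c.u k ^ 2) * ‖z‖ ^ 2 ≤ 55 * ‖z‖ ^ 2 := by
    apply mul_le_mul_of_nonneg_right _ (by positivity)
    linarith
  linarith

lemma norm_one_sub_two_om : ‖1 - 2 * om‖ = √3 := by
  rw [one_sub_two_om, norm_neg, norm_mul, Complex.norm_I, one_mul, Complex.norm_real,
    Real.norm_eq_abs, abs_of_pos s3pos]

lemma Cfg.sep (k l : Fin (n + 1)) (hkl : l ≠ k) (hκ : c.κ / c.u k ≤ 1 / 4) :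
    Real.exp (-(60 / c.u k ^ 2)) ≤ c.m k * |1 - c.u l / c.u k| := by
  have huk := c.upos k
  have hul := c.upos l
  have hu1 := c.u_le_one k
  have hl1 := c.u_le_one l
  set t : Fin (n + 1) → ℝ := fun j => c.u j / c.u k with ht
  have ht0 : ∀ j, 0 < t j := fun j => div_pos (c.upos j) huk
  have hm := congrArg norm (c.hm k)
  rw [norm_mul, norm_mul, norm_pow, norm_prod, norm_one_sub_two_om, Complex.norm_real,
    Real.norm_eq_abs, abs_of_pos (c.mpos k)] at hm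
  have hlmem : l ∈ univ.erase k := Finset.mem_erase.mpr ⟨hkl, Finset.mem_univ _⟩
  rw [← Finset.mul_prod_erase (univ.erase k) _ hlmem] at hm
  have hql : ‖q (om * ((c.u l / c.u k : ℝ) : ℂ))‖ ≤ |1 - t l| * (1 + t l) := by
    rw [q_om_mul, norm_mul]
    have e1 : ‖(1 - ((c.u l / c.u k : ℝ) : ℂ))‖ = |1 - t l| := by
      rw [← Real.norm_eq_abs, ← Complex.norm_real]; push_cast [ht]; rfl
    rw [e1]
    apply mul_le_mul_of_nonneg_left _ (abs_nonneg _)
    refine (norm_sub_le _ _).trans ?_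
    rw [norm_one, norm_mul, norm_pow, om_norm, one_pow, one_mul, Complex.norm_real,
      Real.norm_eq_abs, abs_of_pos (ht0 l)]
  have hB : ∏ j ∈ (univ.erase k).erase l, ‖q (om * ((c.u j / c.u k : ℝ) : ℂ))‖
      ≤ Real.exp (∑ j ∈ (univ.erase k).erase l, (-(t j / 2) + t j ^ 2)) := by
    rw [Real.exp_sum]
    apply Finset.prod_le_prod (fun _ _ => norm_nonneg _)
    intro j _
    have h := norm_q_le (om * ((c.u j / c.u k : ℝ) : ℂ))
    have e1 : (om * ((c.u j / c.u k : ℝ) : ℂ)).re = t j / 2 := by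
      rw [Complex.re_mul_ofReal, om_re]; ring
    have e2 : ‖om * ((c.u j / c.u k : ℝ) : ℂ)‖ = t j := by
      rw [norm_mul, om_norm, one_mul, Complex.norm_real, Real.norm_eq_abs, abs_of_pos (ht0 j)]
    rw [e1, e2] at h
    exact h
  have hA : Real.exp (((2 * n + 1 : ℕ) : ℝ) * (-(c.κ / c.u k / 2) - 11 * (c.κ / c.u k) ^ 2))
      ≤ ‖1 - ((c.κ / c.u k : ℝ) : ℂ) * om‖ ^ (2 * n + 1) := by
    rw [Real.exp_nat_mul]
    apply pow_le_pow_left₀ (Real.exp_pos _).le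
    have hpos : 0 < c.κ / c.u k := div_pos c.κpos huk
    have e2 : ‖((c.κ / c.u k : ℝ) : ℂ) * om‖ = c.κ / c.u k := by
      rw [norm_mul, om_norm, mul_one, Complex.norm_real, Real.norm_eq_abs, abs_of_pos hpos]
    have h := norm_one_sub_ge (((c.κ / c.u k : ℝ) : ℂ) * om) (by rw [e2]; exact hκ)
    rw [e2, Complex.re_ofReal_mul, om_re] at h
    have e3 : c.κ / c.u k / 2 = c.κ / c.u k * (1 / 2) := by ring
    rw [e3]
    exact h
  -- sums
  have hs1 : ∑ j ∈ (univ.erase k).erase l, t j = (∑ j, c.u j) / c.u k - 1 - t l := by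
    have h1 := Finset.add_sum_erase (univ.erase k) t hlmem
    have h2 := Finset.add_sum_erase univ t (Finset.mem_univ k)
    have h3 : ∑ j, t j = (∑ j, c.u j) / c.u k := by rw [Finset.sum_div]
    have h4 : t k = 1 := div_self huk.ne'
    linarith
  have hs2 : ∑ j ∈ (univ.erase k).erase l, t j ^ 2 = (∑ j, c.u j ^ 2) / c.u k ^ 2 - 1 - t l ^ 2 := by
    have h1 := Finset.add_sum_erase (univ.erase k) (fun j => t j ^ 2) hlmem
    have h2 := Finset.add_sum_erase univ (fun j => t j ^ 2) (Finset.mem_univ k)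
    have h3 : ∑ j, t j ^ 2 = (∑ j, c.u j ^ 2) / c.u k ^ 2 := by
      rw [Finset.sum_div]; apply Finset.sum_congr rfl; intro j _; simp only [ht]; rw [div_pow]
    have h4 : t k ^ 2 = 1 := by
      have : t k = 1 := div_self huk.ne'
      rw [this]; norm_num
    linarith
  rw [Finset.sum_add_distrib, Finset.sum_neg_distrib, ← Finset.sum_div, hs1, hs2] at hB
  have hsqrt : √3 ≤ Real.exp 1 := by
    have h1 : √3 ≤ 2 := by
      rw [Real.sqrt_le_left (by norm_num)]; norm_num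
    have h2 := Real.add_one_le_exp (1 : ℝ)
    linarith
  have h1t : 1 + t l ≤ Real.exp (t l) := by
    have := Real.add_one_le_exp (t l); linarith
  set X := c.m k * |1 - t l| with hX
  have hX0 : 0 ≤ X := mul_nonneg (c.mpos k).le (abs_nonneg _)
  have hchain : Real.exp (((2 * n + 1 : ℕ) : ℝ) * (-(c.κ / c.u k / 2) - 11 * (c.κ / c.u k) ^ 2))
      ≤ X * (Real.exp 1 * (Real.exp (t l) * Real.exp (-(((∑ j, c.u j) / c.u k - 1 - t l) / 2)
        + ((∑ j, c.u j ^ 2) / c.u k ^ 2 - 1 - t l ^ 2)))) := by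
    refine hA.trans ?_
    rw [← hm]
    calc c.m k * (√3 * (‖q (om * ((c.u l / c.u k : ℝ) : ℂ))‖
          * ∏ j ∈ (univ.erase k).erase l, ‖q (om * ((c.u j / c.u k : ℝ) : ℂ))‖))
        ≤ c.m k * (Real.exp 1 * ((|1 - t l| * Real.exp (t l))
          * Real.exp (-(((∑ j, c.u j) / c.u k - 1 - t l) / 2)
        + ((∑ j, c.u j ^ 2) / c.u k ^ 2 - 1 - t l ^ 2)))) := by
          apply mul_le_mul_of_nonneg_left _ (c.mpos k).le
          apply mul_le_mul hsqrt _ (by positivity) (Real.exp_pos _).le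
          apply mul_le_mul _ hB (Finset.prod_nonneg fun _ _ => norm_nonneg _) (by positivity)
          exact hql.trans (mul_le_mul_of_nonneg_left h1t (abs_nonneg _))
      _ = _ := by rw [hX]; ring
  have hfin : Real.exp (-(60 / c.u k ^ 2)) * (Real.exp 1 * (Real.exp (t l)
      * Real.exp (-(((∑ j, c.u j) / c.u k - 1 - t l) / 2)
        + ((∑ j, c.u j ^ 2) / c.u k ^ 2 - 1 - t l ^ 2))))
      ≤ Real.exp (((2 * n + 1 : ℕ) : ℝ) * (-(c.κ / c.u k / 2) - 11 * (c.κ / c.u k) ^ 2)) := by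
    rw [← Real.exp_add, ← Real.exp_add, ← Real.exp_add]
    apply Real.exp_le_exp.mpr
    have h5 := c.five
    have h1 := c.coeffs.1
    have he1 := c.e1_le
    have he0 := c.e1_nonneg
    have hS2 := c.S2_nonneg
    set M : ℝ := ((2 * n + 1 : ℕ) : ℝ) with hM
    have hM0 : 0 ≤ M * c.κ ^ 2 := by positivity
    set v := 1 / c.u k with hv
    have hv1 : 1 ≤ v := by rw [hv, le_div_iff₀ huk]; linarith
    have hvv : v ≤ v ^ 2 := by nlinarith
    have e1 : M * (-(c.κ / c.u k / 2) - 11 * (c.κ / c.u k) ^ 2)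
        = -(M * c.κ) * v / 2 - 11 * (M * c.κ ^ 2) * v ^ 2 := by
      rw [hv]; field_simp
    have e2 : t l = c.u l * v := by rw [hv]; simp only [ht]; ring
    have e3 : (∑ j, c.u j) / c.u k = (∑ j, c.u j) * v := by rw [hv]; ring
    have e4 : (∑ j, c.u j ^ 2) / c.u k ^ 2 = (∑ j, c.u j ^ 2) * v ^ 2 := by
      rw [hv]; field_simp
    have e5 : 60 / c.u k ^ 2 = 60 * v ^ 2 := by rw [hv]; field_simp
    rw [e1, e2, e3, e4, e5, h1]
    have g1 : (∑ k, c.m k * c.u k) * v ≤ v ^ 2 := by nlinarith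
    have g2 : (11 * (M * c.κ ^ 2) + ∑ k, c.u k ^ 2) * v ^ 2 ≤ 55 * v ^ 2 := by
      apply mul_le_mul_of_nonneg_right _ (by positivity)
      linarith
    have g3 : c.u l * v ≤ v ^ 2 := by nlinarith
    have g4 : 0 ≤ (c.u l * v) ^ 2 := sq_nonneg _
    have g5 : 1 ≤ v ^ 2 := by nlinarith
    linarith
  have hpos : 0 < (Real.exp 1 * (Real.exp (t l)
      * Real.exp (-(((∑ j, c.u j) / c.u k - 1 - t l) / 2)
        + ((∑ j, c.u j ^ 2) / c.u k ^ 2 - 1 - t l ^ 2)))) := by positivity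
  exact le_of_mul_le_mul_right (hfin.trans hchain) hpos

end Pool.Agent.V1174.FF
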