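import Mathlib
import Pool.Agent.V1174.FF.Bd2

/-! The four point estimate. -/

namespace Pool.Agent.V1174.FF
open Finset

lemma q_ne_real (x : ℝ) : q (x : ℂ) ≠ 0 := by
  intro h
  have h1 := congrArg Complex.re h
  simp [q, pow_two] at h1
  nlinarith [sq_nonneg (x - 1 / 2)]

lemma q_ne_imag (x : ℝ) : q (Complex.I * x) ≠ 0 := by
  intro h
  have h1 := congrArg Complex.re h
  have h2 := congrArg Complex.im h
  simp [q, pow_two] at h1 h2
  rw [h2] at h1
  norm_num at h1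

variable {n : ℕ} (c : Cfg n)

/-- the function of a configuration -/
noncomputable def Cfg.phi (z : ℂ) : ℂ := ∑ k, (c.m k : ℂ) * τ (z * c.u k)

lemma q4 (w : ℂ) : q w * q (-w) * q (Complex.I * w) * q (-(Complex.I * w)) = 1 + w ^ 4 + w ^ 8 := by
  have h1 : q w * q (-w) = 1 + w ^ 2 + w ^ 4 := by unfold q; ring
  have h2 : q (Complex.I * w) * q (-(Complex.I * w)) = 1 - w ^ 2 + w ^ 4 := by
    unfold q
    have : Complex.I ^ 2 = -1 := Complex.I_sq
    have h4 : Complex.I ^ 4 = 1 := Complex.I_pow_four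
    calc (1 - Complex.I * w + (Complex.I * w) ^ 2) * (1 - -(Complex.I * w) + (-(Complex.I * w)) ^ 2)
        = 1 + Complex.I ^ 2 * w ^ 2 + Complex.I ^ 4 * w ^ 4 := by ring
      _ = _ := by rw [this, h4]; ring
  calc q w * q (-w) * q (Complex.I * w) * q (-(Complex.I * w))
      = (q w * q (-w)) * (q (Complex.I * w) * q (-(Complex.I * w))) := by ring
    _ = _ := by rw [h1, h2]; ring

lemma Cfg.four (x : ℝ) (hx : 0 ≤ x) (hκ : c.κ * x ≤ 1) :
    ‖c.phi x‖ * ‖c.phi (-x)‖ * ‖c.phi (Complex.I * x)‖ * ‖c.phi (-(Complex.I * x))‖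
      ≤ 1 / (1 + x ^ 4) := by
  have z1 : ∀ k, q ((x : ℂ) * c.u k) ≠ 0 := by
    intro k; rw [← Complex.ofReal_mul]; exact q_ne_real _
  have z2 : ∀ k, q (-(x : ℂ) * c.u k) ≠ 0 := by
    intro k; rw [← Complex.ofReal_neg, ← Complex.ofReal_mul]; exact q_ne_real _
  have z3 : ∀ k, q (Complex.I * (x : ℂ) * c.u k) ≠ 0 := by
    intro k; rw [mul_assoc, ← Complex.ofReal_mul]; exact q_ne_imag _
  have z4 : ∀ k, q (-(Complex.I * (x : ℂ)) * c.u k) ≠ 0 := by
    intro k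
    have : -(Complex.I * (x : ℂ)) * c.u k = Complex.I * ((-x * c.u k : ℝ) : ℂ) := by
      push_cast; ring
    rw [this]; exact q_ne_imag _
  unfold Cfg.phi
  rw [c.identity _ z1, c.identity _ z2, c.identity _ z3, c.identity _ z4]
  rw [← norm_mul, ← norm_mul, ← norm_mul]
  have e : ((1 - (c.κ : ℂ) * x) ^ (2 * n + 1) / ∏ k, q ((x : ℂ) * c.u k))
      * ((1 - (c.κ : ℂ) * -x) ^ (2 * n + 1) / ∏ k, q (-(x : ℂ) * c.u k))
      * ((1 - (c.κ : ℂ) * (Complex.I * x)) ^ (2 * n + 1) / ∏ k, q (Complex.I * (x : ℂ) * c.u k))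
      * ((1 - (c.κ : ℂ) * -(Complex.I * x)) ^ (2 * n + 1) / ∏ k, q (-(Complex.I * (x : ℂ)) * c.u k))
      = (((1 - (c.κ * x) ^ 4) ^ (2 * n + 1) / ∏ k, (1 + (x * c.u k) ^ 4 + (x * c.u k) ^ 8) : ℝ) : ℂ) := by
    rw [div_mul_div_comm, div_mul_div_comm, div_mul_div_comm]
    push_cast
    congr 1
    · rw [← mul_pow, ← mul_pow, ← mul_pow]
      congr 1
      have h4 : Complex.I ^ 2 = -1 := Complex.I_sq
      linear_combination (-(1 - (c.κ : ℂ) ^ 2 * x ^ 2) * (c.κ : ℂ) ^ 2 * x ^ 2) * h4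
    · rw [← Finset.prod_mul_distrib, ← Finset.prod_mul_distrib, ← Finset.prod_mul_distrib]
      apply Finset.prod_congr rfl
      intro k _
      have a1 : (-(x : ℂ)) * c.u k = -((x : ℂ) * c.u k) := by ring
      have a2 : Complex.I * (x : ℂ) * c.u k = Complex.I * ((x : ℂ) * c.u k) := by ring
      have a3 : -(Complex.I * (x : ℂ)) * c.u k = -(Complex.I * ((x : ℂ) * c.u k)) := by ring
      rw [a1, a2, a3, q4]
  rw [e, Complex.norm_real, Real.norm_eq_abs, abs_div, abs_pow]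
  have h1 : |1 - (c.κ * x) ^ 4| ≤ 1 := by
    have h0 : 0 ≤ c.κ * x := mul_nonneg c.κpos.le hx
    have h2 : (c.κ * x) ^ 4 ≤ 1 := pow_le_one₀ h0 hκ
    have h3 : 0 ≤ (c.κ * x) ^ 4 := by positivity
    rw [abs_le]; constructor <;> linarith
  have h2 : |1 - (c.κ * x) ^ 4| ^ (2 * n + 1) ≤ 1 := pow_le_one₀ (abs_nonneg _) h1
  have h3 : 1 + x ^ 4 ≤ |∏ k, (1 + (x * c.u k) ^ 4 + (x * c.u k) ^ 8)| := by
    have hge : ∀ k, 1 ≤ 1 + (x * c.u k) ^ 4 + (x * c.u k) ^ 8 := by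
      intro k
      have : 0 ≤ (x * c.u k) ^ 4 := by positivity
      have : 0 ≤ (x * c.u k) ^ 8 := by positivity
      linarith
    rw [abs_of_nonneg (Finset.prod_nonneg fun k _ => by linarith [hge k])]
    rw [← Finset.mul_prod_erase univ _ (Finset.mem_univ (0 : Fin (n + 1)))]
    have hp : 1 ≤ ∏ k ∈ univ.erase (0 : Fin (n + 1)), (1 + (x * c.u k) ^ 4 + (x * c.u k) ^ 8) := by
      calc (1 : ℝ) = ∏ k ∈ univ.erase (0 : Fin (n + 1)), (1 : ℝ) := by simp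
        _ ≤ _ := Finset.prod_le_prod (fun _ _ => zero_le_one) fun k _ => hge k
    rw [c.u0, mul_one]
    have h8 : 0 ≤ x ^ 8 := by positivity
    have h4 : 0 ≤ x ^ 4 := by positivity
    nlinarith
  have h4 : 0 < 1 + x ^ 4 := by positivity
  exact div_le_div₀ zero_le_one h2 h4 h3

end Pool.Agent.V1174.FF
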