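import Mathlib
import Pool.Agent.V1174.FF.Bd3

/-! Passage to the limit. -/

namespace Pool.Agent.V1174.FF
open Filter Topology Finset

/-- chosen finite configurations -/
noncomputable def cf (n : ℕ) : Cfg n := (exists_Cfg n).some

/-- the extended inverse radii -/
noncomputable def U (n k : ℕ) : ℝ := if h : k < n + 1 then (cf n).u ⟨k, h⟩ else 0
/-- the extended masses -/
noncomputable def Ms (n k : ℕ) : ℝ := if h : k < n + 1 then (cf n).m ⟨k, h⟩ else 0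

lemma U_fin (n : ℕ) (k : Fin (n + 1)) : U n k = (cf n).u k := by
  unfold U; rw [dif_pos k.2]
lemma Ms_fin (n : ℕ) (k : Fin (n + 1)) : Ms n k = (cf n).m k := by
  unfold Ms; rw [dif_pos k.2]

lemma U_zero (n : ℕ) : U n 0 = 1 := by
  unfold U; rw [dif_pos (by omega)]; exact (cf n).u0

lemma U_nonneg (n k : ℕ) : 0 ≤ U n k := by
  unfold U; split_ifs
  · exact ((cf n).upos _).le
  · exact le_rfl

lemma U_anti (n : ℕ) {j k : ℕ} (h : j ≤ k) : U n k ≤ U n j := by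
  unfold U
  split_ifs with h1 h2
  · exact (cf n).anti.antitone h
  · omega
  · exact ((cf n).upos _).le
  · exact le_rfl

lemma U_le_one (n k : ℕ) : U n k ≤ 1 := by
  rw [← U_zero n]; exact U_anti n (Nat.zero_le k)

lemma U_sq_sum (n K : ℕ) : ∑ k ∈ range K, U n k ^ 2 ≤ 5 := by
  have h1 : ∑ k ∈ range K, U n k ^ 2 ≤ ∑ k ∈ range (K + (n + 1)), U n k ^ 2 :=
    Finset.sum_le_sum_of_subset_of_nonneg (Finset.range_mono (by omega)) fun _ _ _ => sq_nonneg _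
  have h2 : ∑ k ∈ range (K + (n + 1)), U n k ^ 2 = ∑ k ∈ range (n + 1), U n k ^ 2 := by
    symm
    apply Finset.sum_subset (Finset.range_mono (by omega))
    intro k _ hk
    rw [Finset.mem_range] at hk
    unfold U; rw [dif_neg hk]; norm_num
  have h3 : ∑ k ∈ range (n + 1), U n k ^ 2 = ∑ k, (cf n).u k ^ 2 := by
    rw [Finset.sum_range]
    exact Finset.sum_congr rfl fun k _ => by rw [U_fin]
  have h5 := (cf n).five
  have : 0 ≤ ((2 * n + 1 : ℕ) : ℝ) * (cf n).κ ^ 2 := by positivity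
  linarith

lemma U_sq (n k : ℕ) : (k + 1) * U n k ^ 2 ≤ 5 := by
  refine le_trans ?_ (U_sq_sum n (k + 1))
  have : ∑ i ∈ range (k + 1), U n k ^ 2 ≤ ∑ i ∈ range (k + 1), U n i ^ 2 := by
    apply Finset.sum_le_sum
    intro i hi
    have : i ≤ k := by rw [Finset.mem_range] at hi; omega
    exact pow_le_pow_left₀ (U_nonneg _ _) (U_anti n this) 2
  rw [Finset.sum_const, Finset.card_range, nsmul_eq_mul] at this
  push_cast at this
  exact this

lemma Ms_nonneg (n k : ℕ) : 0 ≤ Ms n k := by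
  unfold Ms; split_ifs
  · exact ((cf n).mpos _).le
  · exact le_rfl

lemma Ms_sum (n K : ℕ) : ∑ k ∈ range K, Ms n k ≤ 1 := by
  have h1 : ∑ k ∈ range K, Ms n k ≤ ∑ k ∈ range (K + (n + 1)), Ms n k :=
    Finset.sum_le_sum_of_subset_of_nonneg (Finset.range_mono (by omega))
      fun _ _ _ => Ms_nonneg _ _
  have h2 : ∑ k ∈ range (K + (n + 1)), Ms n k = ∑ k ∈ range (n + 1), Ms n k := by
    symm
    apply Finset.sum_subset (Finset.range_mono (by omega))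
    intro k _ hk
    rw [Finset.mem_range] at hk
    unfold Ms; rw [dif_neg hk]
  have h3 : ∑ k ∈ range (n + 1), Ms n k = ∑ k, (cf n).m k := by
    rw [Finset.sum_range]
    exact Finset.sum_congr rfl fun k _ => by rw [Ms_fin]
  rw [(cf n).sum_m] at h3
  linarith

lemma Ms_le_one (n k : ℕ) : Ms n k ≤ 1 := by
  refine le_trans ?_ (Ms_sum n (k + 1))
  rw [Finset.sum_range_succ]
  have := Finset.sum_nonneg (s := range k) fun i _ => Ms_nonneg n i
  linarith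

lemma ulim (a : ℕ → ℝ) (h : ∀ n, a n ∈ Set.Icc (0:ℝ) 1) :
    ∃ L ∈ Set.Icc (0:ℝ) 1, Tendsto a (hyperfilter ℕ : Filter ℕ) (𝓝 L) := by
  have hc : IsCompact (Set.Icc (0:ℝ) 1) := isCompact_Icc
  obtain ⟨L, hL, hle⟩ := hc.ultrafilter_le_nhds ((hyperfilter ℕ).map a) (by
    rw [le_principal_iff]
    show ∀ᶠ n in (hyperfilter ℕ : Filter ℕ), a n ∈ Set.Icc (0:ℝ) 1
    exact Filter.Eventually.of_forall h)
  exact ⟨L, hL, hle⟩

lemma exists_lu (k : ℕ) : ∃ L ∈ Set.Icc (0:ℝ) 1,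
    Tendsto (fun n => U n k) (hyperfilter ℕ : Filter ℕ) (𝓝 L) :=
  ulim _ fun n => ⟨U_nonneg n k, U_le_one n k⟩
lemma exists_lm (k : ℕ) : ∃ L ∈ Set.Icc (0:ℝ) 1,
    Tendsto (fun n => Ms n k) (hyperfilter ℕ : Filter ℕ) (𝓝 L) :=
  ulim _ fun n => ⟨Ms_nonneg n k, Ms_le_one n k⟩

/-- limit inverse radii -/
noncomputable def lu (k : ℕ) : ℝ := (exists_lu k).choose
/-- limit masses -/
noncomputable def lm (k : ℕ) : ℝ := (exists_lm k).choose

lemma lu_tendsto (k : ℕ) : Tendsto (fun n => U n k) (hyperfilter ℕ : Filter ℕ) (𝓝 (lu k)) :=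
  (exists_lu k).choose_spec.2
lemma lm_tendsto (k : ℕ) : Tendsto (fun n => Ms n k) (hyperfilter ℕ : Filter ℕ) (𝓝 (lm k)) :=
  (exists_lm k).choose_spec.2
lemma lu_nonneg (k : ℕ) : 0 ≤ lu k := (exists_lu k).choose_spec.1.1
lemma lm_nonneg (k : ℕ) : 0 ≤ lm k := (exists_lm k).choose_spec.1.1

lemma lu_zero : lu 0 = 1 := by
  have h := lu_tendsto 0
  simp only [U_zero] at h
  exact tendsto_nhds_unique h tendsto_const_nhds

lemma lu_anti {j k : ℕ} (h : j ≤ k) : lu k ≤ lu j :=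
  le_of_tendsto_of_tendsto (lu_tendsto k) (lu_tendsto j) (Eventually.of_forall fun n => U_anti n h)

lemma lu_le_one (k : ℕ) : lu k ≤ 1 := by rw [← lu_zero]; exact lu_anti (Nat.zero_le k)

lemma lu_sq (k : ℕ) : (k + 1) * lu k ^ 2 ≤ 5 :=
  le_of_tendsto (((lu_tendsto k).pow 2).const_mul ((k : ℝ) + 1)) (Eventually.of_forall fun n => U_sq n k)

lemma lm_sum (K : ℕ) : ∑ k ∈ range K, lm k ≤ 1 :=
  le_of_tendsto (tendsto_finsetSum _ fun k _ => lm_tendsto k) (Eventually.of_forall fun n => Ms_sum n K)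

lemma lm_summable : Summable lm :=
  summable_of_sum_range_le lm_nonneg lm_sum

/-- the uniform bound for the inverse radii -/
noncomputable def wK (K : ℕ) : ℝ := √(5 / (K + 1))

lemma le_wK {x : ℝ} (_hx : 0 ≤ x) {k K : ℕ} (hk : K ≤ k) (h : (k + 1) * x ^ 2 ≤ 5) : x ≤ wK K := by
  unfold wK
  apply Real.le_sqrt_of_sq_le
  rw [le_div_iff₀ (by positivity)]
  have : ((K : ℕ) : ℝ) ≤ k := by exact_mod_cast hk
  nlinarith [sq_nonneg x]

lemma wK_tendsto : Tendsto wK atTop (𝓝 0) := by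
  unfold wK
  have h : Tendsto (fun K : ℕ => (5 : ℝ) / (K + 1)) atTop (𝓝 0) := by
    have := (tendsto_one_div_add_atTop_nhds_zero_nat (𝕜 := ℝ)).const_mul 5
    simpa [div_eq_mul_inv] using this
  have := h.sqrt
  simpa using this

lemma τ_sub_one {w : ℂ} (hw : q w ≠ 0) : τ w - 1 = -(w + w ^ 2) / q w := by
  unfold τ
  field_simp
  unfold q; ring

lemma q_ge {w : ℂ} (hw : ‖w‖ ≤ 1 / 2) : 1 / 4 ≤ ‖q w‖ := by
  have h1 : ‖(1:ℂ)‖ ≤ ‖q w‖ + ‖w‖ + ‖w ^ 2‖ := by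
    have : (1 : ℂ) = q w + w - w ^ 2 := by unfold q; ring
    calc ‖(1:ℂ)‖ = ‖q w + w - w ^ 2‖ := by rw [← this]
      _ ≤ ‖q w + w‖ + ‖w ^ 2‖ := norm_sub_le _ _
      _ ≤ _ := by linarith [norm_add_le (q w) w]
  rw [norm_one, norm_pow] at h1
  nlinarith [norm_nonneg w]

lemma q_ne_small {w : ℂ} (hw : ‖w‖ ≤ 1 / 2) : q w ≠ 0 := by
  intro h
  have := q_ge hw
  rw [h, norm_zero] at this
  norm_num at this

lemma τ_sub_one_le {w : ℂ} (hw : ‖w‖ ≤ 1 / 2) : ‖τ w - 1‖ ≤ 6 * ‖w‖ := by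
  rw [τ_sub_one (q_ne_small hw), norm_div, norm_neg, div_le_iff₀ (norm_pos_iff.mpr (q_ne_small hw))]
  have h1 := q_ge hw
  have h2 : ‖w + w ^ 2‖ ≤ ‖w‖ + ‖w‖ ^ 2 := by
    refine (norm_add_le _ _).trans ?_; rw [norm_pow]
  have h0 := norm_nonneg w
  have h3 : 6 * ‖w‖ * (1 / 4) ≤ 6 * ‖w‖ * ‖q w‖ := mul_le_mul_of_nonneg_left h1 (by positivity)
  nlinarith

lemma tail (a v : ℕ → ℝ) (ha : ∀ k, 0 ≤ a k) (hs : ∀ K, ∑ k ∈ range K, a k ≤ 1)
    (hv0 : ∀ k, 0 ≤ v k) (z : ℂ) (K : ℕ) (W : ℝ) (hW : ∀ k, K ≤ k → v k ≤ W) (hz : ‖z‖ * W ≤ 1 / 2)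
    (hW0 : 0 ≤ W) (L : ℕ) :
    ‖∑ k ∈ Ico K L, (a k : ℂ) * (τ (z * v k) - 1)‖ ≤ 6 * (‖z‖ * W) := by
  have h1 : ∀ k ∈ Ico K L, ‖(a k : ℂ) * (τ (z * v k) - 1)‖ ≤ a k * (6 * (‖z‖ * W)) := by
    intro k hk
    have hk' : K ≤ k := (Finset.mem_Ico.mp hk).1
    rw [norm_mul, Complex.norm_real, Real.norm_eq_abs, abs_of_nonneg (ha k)]
    apply mul_le_mul_of_nonneg_left _ (ha k)
    have e : ‖z * (v k : ℂ)‖ ≤ ‖z‖ * W := by
      rw [norm_mul, Complex.norm_real, Real.norm_eq_abs, abs_of_nonneg (hv0 k)]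
      exact mul_le_mul_of_nonneg_left (hW k hk') (norm_nonneg _)
    refine (τ_sub_one_le (e.trans hz)).trans (mul_le_mul_of_nonneg_left e (by norm_num))
  refine (norm_sum_le _ _).trans ((Finset.sum_le_sum h1).trans ?_)
  rw [← Finset.sum_mul]
  have h2 : ∑ k ∈ Ico K L, a k ≤ 1 := by
    refine le_trans ?_ (hs L)
    apply Finset.sum_le_sum_of_subset_of_nonneg
    · intro k hk; rw [Finset.mem_range]; exact (Finset.mem_Ico.mp hk).2
    · intro k _ _; exact ha k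
  have h3 : 0 ≤ 6 * (‖z‖ * W) := by positivity
  calc (∑ k ∈ Ico K L, a k) * (6 * (‖z‖ * W)) ≤ 1 * (6 * (‖z‖ * W)) :=
        mul_le_mul_of_nonneg_right h2 h3
    _ = _ := one_mul _

/-- the limit function -/
noncomputable def Phi (z : ℂ) : ℂ := 1 + ∑' k, (lm k : ℂ) * (τ (z * lu k) - 1)

lemma Phi_summable (z : ℂ) : Summable fun k => (lm k : ℂ) * (τ (z * lu k) - 1) := by
  apply Summable.of_norm_bounded_eventually_nat (g := fun k => lm k * 3) (lm_summable.mul_right 3)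
  have h : Tendsto (fun K => ‖z‖ * wK K) atTop (𝓝 0) := by
    simpa using wK_tendsto.const_mul ‖z‖
  have h' := h.eventually_le_const (show (0:ℝ) < 1 / 2 by norm_num)
  filter_upwards [h'] with k hk
  rw [norm_mul, Complex.norm_real, Real.norm_eq_abs, abs_of_nonneg (lm_nonneg k)]
  apply mul_le_mul_of_nonneg_left _ (lm_nonneg k)
  have e : ‖z * (lu k : ℂ)‖ ≤ 1 / 2 := by
    rw [norm_mul, Complex.norm_real, Real.norm_eq_abs, abs_of_nonneg (lu_nonneg k)]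
    exact (mul_le_mul_of_nonneg_left (le_wK (lu_nonneg k) le_rfl (lu_sq k)) (norm_nonneg _)).trans hk
  refine (τ_sub_one_le e).trans (by linarith)

lemma phi_eq (n K : ℕ) (hK : n + 1 ≤ K) (z : ℂ) :
    (cf n).phi z = 1 + ∑ k ∈ range K, (Ms n k : ℂ) * (τ (z * U n k) - 1) := by
  have h1 : ∑ k ∈ range K, (Ms n k : ℂ) * (τ (z * U n k) - 1)
      = ∑ k ∈ range (n + 1), (Ms n k : ℂ) * (τ (z * U n k) - 1) := by
    symm
    apply Finset.sum_subset (Finset.range_mono hK)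
    intro k _ hk
    rw [Finset.mem_range] at hk
    have : Ms n k = 0 := by unfold Ms; rw [dif_neg hk]
    rw [this]; simp
  rw [h1, Finset.sum_range]
  simp only [U_fin, Ms_fin, mul_sub, mul_one, Finset.sum_sub_distrib]
  have : ∑ k, ((cf n).m k : ℂ) = 1 := by exact_mod_cast (cf n).sum_m
  rw [this]
  unfold Cfg.phi
  ring

lemma q_cont : Continuous q := by unfold q; fun_prop

lemma τ_tendsto {z : ℂ} (hz : ∀ k, q (z * lu k) ≠ 0) (k : ℕ) :
    Tendsto (fun n => (Ms n k : ℂ) * (τ (z * U n k) - 1)) (hyperfilter ℕ : Filter ℕ)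
      (𝓝 ((lm k : ℂ) * (τ (z * lu k) - 1))) := by
  have h1 : Tendsto (fun n => ((Ms n k : ℝ) : ℂ)) (hyperfilter ℕ : Filter ℕ) (𝓝 (lm k : ℂ)) :=
    (Complex.continuous_ofReal.tendsto _).comp (lm_tendsto k)
  have h2 : Tendsto (fun n => z * ((U n k : ℝ) : ℂ)) (hyperfilter ℕ : Filter ℕ)
      (𝓝 (z * (lu k : ℂ))) :=
    ((Complex.continuous_ofReal.tendsto _).comp (lu_tendsto k)).const_mul z
  have h3 : Tendsto (fun n => q (z * ((U n k : ℝ) : ℂ))) (hyperfilter ℕ : Filter ℕ)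
      (𝓝 (q (z * (lu k : ℂ)))) := (q_cont.tendsto _).comp h2
  have h4 : Tendsto (fun n => τ (z * ((U n k : ℝ) : ℂ))) (hyperfilter ℕ : Filter ℕ)
      (𝓝 (τ (z * (lu k : ℂ)))) := by
    unfold τ
    exact ((h2.const_mul 2).const_sub 1).div h3 (hz k)
  exact h1.mul (h4.sub_const 1)

lemma exists_K (z : ℂ) (ε : ℝ) (hε : 0 < ε) : ∃ K, ‖z‖ * wK K ≤ ε := by
  have h : Tendsto (fun K => ‖z‖ * wK K) atTop (𝓝 0) := by
    simpa using wK_tendsto.const_mul ‖z‖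
  exact (h.eventually_le_const hε).exists

lemma Phi_tail (z : ℂ) (K : ℕ) (hK : ‖z‖ * wK K ≤ 1 / 2) :
    ‖∑' k, (lm k : ℂ) * (τ (z * lu k) - 1) - ∑ k ∈ range K, (lm k : ℂ) * (τ (z * lu k) - 1)‖
      ≤ 6 * (‖z‖ * wK K) := by
  have h1 := (Phi_summable z).hasSum.tendsto_sum_nat
  have h2 := (h1.sub_const (∑ k ∈ range K, (lm k : ℂ) * (τ (z * lu k) - 1))).norm
  apply le_of_tendsto h2
  filter_upwards [eventually_ge_atTop K] with L hL
  rw [← Finset.sum_Ico_eq_sub _ hL]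
  exact tail lm lu lm_nonneg lm_sum lu_nonneg z K (wK K)
    (fun k hk => le_wK (lu_nonneg k) hk (lu_sq k)) hK (Real.sqrt_nonneg _) L

lemma phi_tail (n : ℕ) (z : ℂ) (K : ℕ) (hK : ‖z‖ * wK K ≤ 1 / 2) :
    ‖(cf n).phi z - (1 + ∑ k ∈ range K, (Ms n k : ℂ) * (τ (z * U n k) - 1))‖
      ≤ 6 * (‖z‖ * wK K) := by
  rw [phi_eq n (K + (n + 1)) (by omega) z, add_sub_add_left_eq_sub,
    ← Finset.sum_Ico_eq_sub _ (by omega)]
  exact tail (Ms n) (U n) (Ms_nonneg n) (Ms_sum n) (U_nonneg n) z K (wK K)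
    (fun k hk => le_wK (U_nonneg n k) hk (U_sq n k)) hK (Real.sqrt_nonneg _) _

lemma phi_tendsto {z : ℂ} (hz : ∀ k, q (z * lu k) ≠ 0) :
    Tendsto (fun n => (cf n).phi z) (hyperfilter ℕ : Filter ℕ) (𝓝 (Phi z)) := by
  rw [Metric.tendsto_nhds]
  intro ε hε
  obtain ⟨K, hK⟩ := exists_K z (min (1 / 2) (ε / 24)) (by positivity)
  have hK1 : ‖z‖ * wK K ≤ 1 / 2 := hK.trans (min_le_left _ _)
  have hK2 : ‖z‖ * wK K ≤ ε / 24 := hK.trans (min_le_right _ _)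
  have h1 : Tendsto (fun n => 1 + ∑ k ∈ range K, (Ms n k : ℂ) * (τ (z * U n k) - 1))
      (hyperfilter ℕ : Filter ℕ) (𝓝 (1 + ∑ k ∈ range K, (lm k : ℂ) * (τ (z * lu k) - 1))) :=
    (tendsto_finsetSum _ fun k _ => τ_tendsto hz k).const_add 1
  rw [Metric.tendsto_nhds] at h1
  filter_upwards [h1 (ε / 4) (by positivity)] with n hn
  have h2 := phi_tail n z K hK1
  have h3 := Phi_tail z K hK1
  rw [dist_eq_norm] at hn ⊢
  have e : (cf n).phi z - Phi z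
      = ((cf n).phi z - (1 + ∑ k ∈ range K, (Ms n k : ℂ) * (τ (z * U n k) - 1)))
        + ((1 + ∑ k ∈ range K, (Ms n k : ℂ) * (τ (z * U n k) - 1))
          - (1 + ∑ k ∈ range K, (lm k : ℂ) * (τ (z * lu k) - 1)))
        - (∑' k, (lm k : ℂ) * (τ (z * lu k) - 1)
          - ∑ k ∈ range K, (lm k : ℂ) * (τ (z * lu k) - 1)) := by
    unfold Phi; ring
  rw [e]
  refine lt_of_le_of_lt (norm_sub_le _ _) ?_
  have h4 := norm_add_le ((cf n).phi z - (1 + ∑ k ∈ range K, (Ms n k : ℂ) * (τ (z * U n k) - 1)))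
    ((1 + ∑ k ∈ range K, (Ms n k : ℂ) * (τ (z * U n k) - 1))
          - (1 + ∑ k ∈ range K, (lm k : ℂ) * (τ (z * lu k) - 1)))
  linarith

lemma κ_tendsto : Tendsto (fun n => (cf n).κ) (hyperfilter ℕ : Filter ℕ) (𝓝 0) := by
  refine Tendsto.mono_left ?_ Nat.hyperfilter_le_atTop
  apply squeeze_zero (fun n => (cf n).κpos.le) (g := wK) _ wK_tendsto
  intro n
  apply le_wK (cf n).κpos.le (le_refl n)
  have h5 := (cf n).five
  have h6 := (cf n).S2_nonneg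
  push_cast at h5
  have : 0 ≤ (n : ℝ) * (cf n).κ ^ 2 := by positivity
  nlinarith

lemma ev_q {z : ℂ} (hz : ∀ k, q (z * lu k) ≠ 0) :
    ∀ᶠ n in (hyperfilter ℕ : Filter ℕ), ∀ k, q (z * U n k) ≠ 0 := by
  obtain ⟨K, hK⟩ := exists_K z (1 / 2) (by norm_num)
  have h : ∀ᶠ n in (hyperfilter ℕ : Filter ℕ), ∀ k ∈ range K, q (z * U n k) ≠ 0 := by
    rw [Filter.eventually_all_finset]
    intro k _
    have h2 : Tendsto (fun n => z * ((U n k : ℝ) : ℂ)) (hyperfilter ℕ : Filter ℕ)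
      (𝓝 (z * (lu k : ℂ))) :=
      ((Complex.continuous_ofReal.tendsto _).comp (lu_tendsto k)).const_mul z
    have h3 : Tendsto (fun n => q (z * ((U n k : ℝ) : ℂ))) (hyperfilter ℕ : Filter ℕ)
      (𝓝 (q (z * (lu k : ℂ)))) := (q_cont.tendsto _).comp h2
    exact h3.eventually_ne (hz k)
  filter_upwards [h] with n hn k
  by_cases hk : k ∈ range K
  · exact hn k hk
  · rw [Finset.mem_range, not_lt] at hk
    apply q_ne_small
    rw [norm_mul, Complex.norm_real, Real.norm_eq_abs, abs_of_nonneg (U_nonneg n k)]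
    exact (mul_le_mul_of_nonneg_left (le_wK (U_nonneg n k) hk (U_sq n k)) (norm_nonneg _)).trans hK

theorem Phi_lower {z : ℂ} (hz : ∀ k, q (z * lu k) ≠ 0) :
    Real.exp (-(‖z‖ + 55 * ‖z‖ ^ 2)) ≤ ‖Phi z‖ := by
  apply ge_of_tendsto (phi_tendsto hz).norm
  have h1 : Tendsto (fun n => (cf n).κ * ‖z‖) (hyperfilter ℕ : Filter ℕ) (𝓝 0) := by
    simpa using κ_tendsto.mul_const ‖z‖
  filter_upwards [ev_q hz, h1.eventually_le_const (show (0:ℝ) < 1 / 4 by norm_num)] with n hn hκ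
  apply (cf n).lower z hκ
  intro k
  rw [← U_fin]
  exact hn k

theorem Phi_ne {z : ℂ} (hz : ∀ k, q (z * lu k) ≠ 0) : Phi z ≠ 0 := by
  intro h
  have := Phi_lower hz
  rw [h, norm_zero] at this
  exact absurd this (not_le.mpr (Real.exp_pos _))

theorem Phi_four (x : ℝ) (hx : 0 ≤ x) :
    ‖Phi x‖ * ‖Phi (-x)‖ * ‖Phi (Complex.I * x)‖ * ‖Phi (-(Complex.I * x))‖ ≤ 1 / (1 + x ^ 4) := by
  have z1 : ∀ k, q ((x : ℂ) * lu k) ≠ 0 := by
    intro k; rw [← Complex.ofReal_mul]; exact q_ne_real _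
  have z2 : ∀ k, q (-(x : ℂ) * lu k) ≠ 0 := by
    intro k; rw [← Complex.ofReal_neg, ← Complex.ofReal_mul]; exact q_ne_real _
  have z3 : ∀ k, q (Complex.I * (x : ℂ) * lu k) ≠ 0 := by
    intro k; rw [mul_assoc, ← Complex.ofReal_mul]; exact q_ne_imag _
  have z4 : ∀ k, q (-(Complex.I * (x : ℂ)) * lu k) ≠ 0 := by
    intro k
    have : -(Complex.I * (x : ℂ)) * lu k = Complex.I * ((-x * lu k : ℝ) : ℂ) := by
      push_cast; ring
    rw [this]; exact q_ne_imag _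
  have ht := (((phi_tendsto z1).norm.mul (phi_tendsto z2).norm).mul (phi_tendsto z3).norm).mul
    (phi_tendsto z4).norm
  apply le_of_tendsto ht
  have h1 : Tendsto (fun n => (cf n).κ * x) (hyperfilter ℕ : Filter ℕ) (𝓝 0) := by
    simpa using κ_tendsto.mul_const x
  filter_upwards [h1.eventually_le_const (show (0:ℝ) < 1 by norm_num)] with n hκ
  exact (cf n).four x hx hκ

theorem l_sep {k l : ℕ} (hkl : l ≠ k) (hk : 0 < lu k) :
    Real.exp (-(60 / lu k ^ 2)) ≤ lm k * |1 - lu l / lu k| := by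
  have h1 : Tendsto (fun n => Real.exp (-(60 / U n k ^ 2))) (hyperfilter ℕ : Filter ℕ)
      (𝓝 (Real.exp (-(60 / lu k ^ 2)))) := by
    refine (Real.continuous_exp.tendsto _).comp ?_
    exact (Tendsto.div tendsto_const_nhds ((lu_tendsto k).pow 2) (by positivity)).neg
  have h2 : Tendsto (fun n => Ms n k * |1 - U n l / U n k|) (hyperfilter ℕ : Filter ℕ)
      (𝓝 (lm k * |1 - lu l / lu k|)) :=
    (lm_tendsto k).mul (((lu_tendsto l).div (lu_tendsto k) hk.ne').const_sub 1).abs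
  apply le_of_tendsto_of_tendsto h1 h2
  have h3 : Tendsto (fun n => (cf n).κ / U n k) (hyperfilter ℕ : Filter ℕ) (𝓝 0) := by
    have := κ_tendsto.div (lu_tendsto k) hk.ne'
    rw [zero_div] at this
    exact this
  have h4 : ∀ᶠ n in (hyperfilter ℕ : Filter ℕ), max k l < n + 1 := by
    apply Nat.hyperfilter_le_atTop
    filter_upwards [eventually_ge_atTop (max k l)] with n hn
    omega
  filter_upwards [h3.eventually_le_const (show (0:ℝ) < 1 / 4 by norm_num), h4] with n hn hn'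
  have hkn : k < n + 1 := by omega
  have hln : l < n + 1 := by omega
  have e1 : U n k = (cf n).u ⟨k, hkn⟩ := U_fin n ⟨k, hkn⟩
  have e2 : U n l = (cf n).u ⟨l, hln⟩ := U_fin n ⟨l, hln⟩
  have e3 : Ms n k = (cf n).m ⟨k, hkn⟩ := Ms_fin n ⟨k, hkn⟩
  rw [e1] at hn
  rw [e1, e2, e3]
  apply (cf n).sep ⟨k, hkn⟩ ⟨l, hln⟩ _ hn
  intro h
  exact hkl (Fin.mk.inj_iff.mp h)

theorem lm_pos {k : ℕ} (hk : 0 < lu k) : 0 < lm k := by
  have h := l_sep (k := k) (l := k + 1) (by omega) hk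
  have h1 := Real.exp_pos (-(60 / lu k ^ 2))
  by_contra hcon
  have : lm k = 0 := le_antisymm (not_lt.mp hcon) (lm_nonneg k)
  rw [this, zero_mul] at h
  linarith

theorem lu_ne {k l : ℕ} (hkl : l ≠ k) (hk : 0 < lu k) : lu l ≠ lu k := by
  intro he
  have h := l_sep hkl hk
  rw [he, div_self hk.ne', sub_self, abs_zero, mul_zero] at h
  exact absurd h (not_le.mpr (Real.exp_pos _))

end Pool.Agent.V1174.FF
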