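import Mathlib
import Pool.Agent.V1174.FF.Lim

/-! No mass escapes, and there are infinitely many points. -/

namespace Pool.Agent.V1174.FF
open Filter Topology Finset

/-- masses at the finite points -/
noncomputable def bm (k : ℕ) : ℝ := if lu k = 0 then 0 else lm k

lemma bm_nonneg (k : ℕ) : 0 ≤ bm k := by
  unfold bm; split_ifs
  · exact le_rfl
  · exact lm_nonneg k

lemma bm_le (k : ℕ) : bm k ≤ lm k := by
  unfold bm; split_ifs
  · exact lm_nonneg k
  · exact le_rfl

lemma bm_summable : Summable bm := Summable.of_nonneg_of_le bm_nonneg bm_le lm_summable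

lemma τ_zero : τ 0 = 1 := by simp [τ, q]

lemma τ_large {w : ℂ} (hw : 4 ≤ ‖w‖) : ‖τ w‖ ≤ 5 / ‖w‖ := by
  have h0 : 0 < ‖w‖ := by linarith
  have h1 : ‖w‖ ^ 2 - ‖w‖ - 1 ≤ ‖q w‖ := by
    have : w ^ 2 = q w + w - 1 := by unfold q; ring
    have h2 : ‖w ^ 2‖ ≤ ‖q w‖ + ‖w‖ + ‖(1:ℂ)‖ := by
      calc ‖w ^ 2‖ = ‖q w + w - 1‖ := by rw [← this]
        _ ≤ ‖q w + w‖ + ‖(1:ℂ)‖ := norm_sub_le _ _
        _ ≤ _ := by linarith [norm_add_le (q w) w]
    rw [norm_pow, norm_one] at h2
    linarith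
  have h3 : 0 < ‖q w‖ := by nlinarith
  have h4 : ‖1 - 2 * w‖ ≤ 1 + 2 * ‖w‖ := by
    refine (norm_sub_le _ _).trans ?_
    rw [norm_one, norm_mul]; norm_num
  unfold τ
  rw [norm_div, div_le_div_iff₀ h3 h0]
  nlinarith

lemma bound_real (t : ℝ) : ‖τ (t : ℂ) - 1‖ ≤ 4 := by
  rw [τ_sub_one (q_ne_real t), norm_div, norm_neg,
    div_le_iff₀ (norm_pos_iff.mpr (q_ne_real t))]
  have e1 : (t : ℂ) + (t : ℂ) ^ 2 = ((t + t ^ 2 : ℝ) : ℂ) := by push_cast; ring
  have e2 : q (t : ℂ) = ((1 - t + t ^ 2 : ℝ) : ℂ) := by unfold q; push_cast; ring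
  rw [e1, e2, Complex.norm_real, Complex.norm_real, Real.norm_eq_abs, Real.norm_eq_abs]
  have h1 : 0 < 1 - t + t ^ 2 := by nlinarith [sq_nonneg (t - 1 / 2)]
  rw [abs_of_pos h1, abs_le]
  constructor
  · nlinarith [sq_nonneg (t - 1 / 2)]
  · nlinarith [sq_nonneg (t - 5 / 6)]

lemma bound_imag (t : ℝ) : ‖τ (Complex.I * t) - 1‖ ≤ 4 := by
  rw [τ_sub_one (q_ne_imag t), norm_div, norm_neg,
    div_le_iff₀ (norm_pos_iff.mpr (q_ne_imag t))]
  apply le_of_sq_le_sq _ (by positivity)
  have e1 : ‖Complex.I * (t : ℂ) + (Complex.I * (t : ℂ)) ^ 2‖ ^ 2 = t ^ 2 + t ^ 4 := by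
    rw [← Complex.normSq_eq_norm_sq, Complex.normSq_apply]
    simp [pow_two]; ring
  have e2 : (4 * ‖q (Complex.I * (t : ℂ))‖) ^ 2 = 16 * (1 - t ^ 2 + t ^ 4) := by
    rw [mul_pow, ← Complex.normSq_eq_norm_sq, Complex.normSq_apply]
    simp [q, pow_two]; ring
  rw [e1, e2]
  nlinarith [sq_nonneg (t ^ 2 - 1 / 2), sq_nonneg t, sq_nonneg (t ^ 2)]

lemma Phi_lim (ζ : ℂ) (hζ : ‖ζ‖ = 1) (hb : ∀ t : ℝ, ‖τ (ζ * t) - 1‖ ≤ 4) :
    Tendsto (fun x : ℝ => Phi (ζ * x)) atTop (𝓝 (1 - ∑' k, (bm k : ℂ))) := by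
  have h : Tendsto (fun x : ℝ => ∑' k, (lm k : ℂ) * (τ (ζ * x * lu k) - 1)) atTop
      (𝓝 (∑' k, -(bm k : ℂ))) := by
    apply tendsto_tsum_of_dominated_convergence (bound := fun k => lm k * 4)
      (lm_summable.mul_right 4)
    · intro k
      by_cases hk : lu k = 0
      · simp [bm, hk, τ_zero]
      · have hk0 : 0 < lu k := lt_of_le_of_ne (lu_nonneg k) (Ne.symm hk)
        have e : (bm k : ℂ) = lm k := by simp [bm, hk]
        rw [e]
        have h1 : Tendsto (fun x : ℝ => τ (ζ * x * lu k)) atTop (𝓝 0) := by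
          have h2 : Tendsto (fun x : ℝ => x * lu k) atTop atTop :=
            tendsto_id.atTop_mul_const hk0
          have h3 : Tendsto (fun x : ℝ => 5 / (x * lu k)) atTop (𝓝 0) :=
            h2.const_div_atTop 5
          apply squeeze_zero_norm' _ h3
          filter_upwards [h2.eventually_ge_atTop 4] with x hx
          have e3 : ‖ζ * (x : ℂ) * (lu k : ℂ)‖ = x * lu k := by
            have hx0 : 0 ≤ x := by
              by_contra hneg
              push Not at hneg
              nlinarith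
            rw [norm_mul, norm_mul, hζ, Complex.norm_real, Complex.norm_real, Real.norm_eq_abs,
              Real.norm_eq_abs, abs_of_nonneg hx0, abs_of_pos hk0, one_mul]
          have := τ_large (w := ζ * (x : ℂ) * (lu k : ℂ)) (by rw [e3]; exact hx)
          rw [e3] at this
          exact this
        have h4 := (h1.sub_const 1).const_mul (lm k : ℂ)
        simpa using h4
    · apply Eventually.of_forall
      intro x k
      rw [norm_mul, Complex.norm_real, Real.norm_eq_abs, abs_of_nonneg (lm_nonneg k)]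
      apply mul_le_mul_of_nonneg_left _ (lm_nonneg k)
      have := hb (x * lu k)
      push_cast at this
      rw [← mul_assoc] at this
      exact this
  have h2 := h.const_add 1
  rw [tsum_neg] at h2
  rw [sub_eq_add_neg]
  exact h2

lemma bm_tsum : ∑' k, bm k = 1 := by
  have t1 := Phi_lim 1 (by simp) (fun t => by rw [one_mul]; exact bound_real t)
  have t2 := Phi_lim (-1) (by simp) (fun t => by
    have := bound_real (-t); push_cast at this; rw [neg_one_mul]; exact this)
  have t3 := Phi_lim Complex.I (by simp) bound_imag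
  have t4 := Phi_lim (-Complex.I) (by simp) (fun t => by
    have := bound_imag (-t); push_cast at this
    rw [show -Complex.I * (t : ℂ) = Complex.I * -(t : ℂ) by ring]; exact this)
  have t := ((t1.norm.mul t2.norm).mul t3.norm).mul t4.norm
  have hz : Tendsto (fun x : ℝ => 1 / (1 + x ^ 4)) atTop (𝓝 0) := by
    apply Tendsto.const_div_atTop
    apply tendsto_atTop_add_const_left
    exact tendsto_pow_atTop (by norm_num)
  have hle : ∀ᶠ x : ℝ in atTop, ‖Phi (1 * x)‖ * ‖Phi (-1 * x)‖ * ‖Phi (Complex.I * x)‖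
      * ‖Phi (-Complex.I * x)‖ ≤ 1 / (1 + x ^ 4) := by
    filter_upwards [eventually_ge_atTop 0] with x hx
    have := Phi_four x hx
    rw [one_mul, neg_one_mul, neg_mul]
    exact this
  have h := le_of_tendsto_of_tendsto t hz hle
  have h0 : ‖1 - ∑' k, (bm k : ℂ)‖ = 0 := by
    have h1 := norm_nonneg (1 - ∑' k, (bm k : ℂ))
    by_contra hne
    have h2 : 0 < ‖1 - ∑' k, (bm k : ℂ)‖ := lt_of_le_of_ne h1 (Ne.symm hne)
    have : 0 < ‖1 - ∑' k, (bm k : ℂ)‖ * ‖1 - ∑' k, (bm k : ℂ)‖ * ‖1 - ∑' k, (bm k : ℂ)‖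
      * ‖1 - ∑' k, (bm k : ℂ)‖ := by positivity
    linarith
  rw [norm_eq_zero, sub_eq_zero] at h0
  have : ((∑' k, bm k : ℝ) : ℂ) = 1 := by rw [Complex.ofReal_tsum]; exact h0.symm
  exact_mod_cast this

/-- the real kernel -/
noncomputable def τr (t : ℝ) : ℝ := (1 - 2 * t) / (1 - t + t ^ 2)

lemma τr_cast (t : ℝ) : τ (t : ℂ) = ((τr t : ℝ) : ℂ) := by
  unfold τ τr q; push_cast; ring

lemma qr_pos (t : ℝ) : 0 < 1 - t + t ^ 2 := by nlinarith [sq_nonneg (t - 1 / 2)]

lemma τr_cont : Continuous τr := by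
  unfold τr
  exact Continuous.div (by fun_prop) (by fun_prop) fun t => (qr_pos t).ne'

lemma τr_neg {t : ℝ} (ht : 1 ≤ t) : τr t < 0 := by
  unfold τr
  exact div_neg_of_neg_of_pos (by linarith) (qr_pos t)

lemma τr_bound (t : ℝ) : |τr t - 1| ≤ 4 := by
  have := bound_real t
  rw [τr_cast, ← Complex.ofReal_one, ← Complex.ofReal_sub, Complex.norm_real,
    Real.norm_eq_abs] at this
  exact this

/-- the real restriction -/
noncomputable def Rr (x : ℝ) : ℝ := 1 + ∑' k, lm k * (τr (x * lu k) - 1)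

lemma Rr_cast (x : ℝ) : Phi (x : ℂ) = ((Rr x : ℝ) : ℂ) := by
  unfold Phi Rr
  rw [Complex.ofReal_add, Complex.ofReal_tsum, Complex.ofReal_one]
  congr 1
  apply tsum_congr
  intro k
  rw [Complex.ofReal_mul, Complex.ofReal_sub, ← τr_cast]
  push_cast; rfl

lemma Rr_summable (x : ℝ) : Summable fun k => lm k * (τr (x * lu k) - 1) := by
  apply Summable.of_norm_bounded (g := fun k => lm k * 4) (lm_summable.mul_right 4)
  intro k
  rw [norm_mul, Real.norm_eq_abs, Real.norm_eq_abs, abs_of_nonneg (lm_nonneg k)]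
  exact mul_le_mul_of_nonneg_left (τr_bound _) (lm_nonneg k)

lemma Rr_cont : Continuous Rr := by
  unfold Rr
  apply continuous_const.add
  apply continuous_tsum (u := fun k => lm k * 4) _ (lm_summable.mul_right 4)
  · intro k x
    rw [norm_mul, Real.norm_eq_abs, Real.norm_eq_abs, abs_of_nonneg (lm_nonneg k)]
    exact mul_le_mul_of_nonneg_left (τr_bound _) (lm_nonneg k)
  · intro k
    have := τr_cont
    fun_prop

lemma Rr_ne (x : ℝ) : Rr x ≠ 0 := by
  intro h
  have h1 := Rr_cast x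
  rw [h] at h1
  refine Phi_ne (z := (x : ℂ)) (fun k => ?_) (by rw [h1]; simp)
  rw [← Complex.ofReal_mul]
  exact q_ne_real _

theorem lu_pos (k : ℕ) : 0 < lu k := by
  by_contra hcon
  have hex : ∃ K, lu K = 0 := ⟨k, le_antisymm (not_lt.mp hcon) (lu_nonneg k)⟩
  classical
  set K := Nat.find hex with hK
  have hK0 : lu K = 0 := Nat.find_spec hex
  have hKpos : K ≠ 0 := by
    intro h
    rw [h, lu_zero] at hK0
    norm_num at hK0
  obtain ⟨K', hK'⟩ := Nat.exists_eq_succ_of_ne_zero hKpos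
  have hu : 0 < lu K' := by
    have : lu K' ≠ 0 := Nat.find_min hex (by rw [← hK, hK']; exact Nat.lt_succ_self _)
    exact lt_of_le_of_ne (lu_nonneg _) (Ne.symm this)
  have hcases : ∀ j, lu j = 0 ∨ lu K' ≤ lu j := by
    intro j
    rcases Nat.lt_or_ge j K with h | h
    · right; exact lu_anti (by omega)
    · left
      exact le_antisymm (hK0 ▸ lu_anti h) (lu_nonneg _)
  set x := 1 / lu K' with hx
  have hxpos : 0 < x := by positivity
  have hneg : Rr x < 0 := by
    have hR : Rr x = ∑' j, (bm j + lm j * (τr (x * lu j) - 1)) := by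
      rw [Summable.tsum_add bm_summable (Rr_summable x), bm_tsum]; rfl
    rw [hR]
    have hterm : ∀ j, bm j + lm j * (τr (x * lu j) - 1) ≤ 0 := by
      intro j
      rcases hcases j with h | h
      · simp [bm, h, τr]
      · have hj : lu j ≠ 0 := (lt_of_lt_of_le hu h).ne'
        have h1 : 1 ≤ x * lu j := by
          rw [hx, one_div, ← div_eq_inv_mul, le_div_iff₀ hu]; linarith
        have h2 := τr_neg h1
        have e : bm j = lm j := by simp [bm, hj]
        rw [e]
        nlinarith [lm_nonneg j]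
    have h0 : bm 0 + lm 0 * (τr (x * lu 0) - 1) < 0 := by
      have h1 : 1 ≤ x * lu 0 := by
        rw [hx, one_div, ← div_eq_inv_mul, le_div_iff₀ hu, one_mul]; exact lu_anti (Nat.zero_le _)
      have h2 := τr_neg h1
      have e : bm 0 = lm 0 := by simp [bm, lu_zero]
      have h3 : 0 < lm 0 := lm_pos (by rw [lu_zero]; norm_num)
      rw [e]
      nlinarith
    have hsum := bm_summable.add (Rr_summable x)
    rw [hsum.tsum_eq_zero_add]
    have h4 : ∑' j, (bm (j + 1) + lm (j + 1) * (τr (x * lu (j + 1)) - 1)) ≤ 0 :=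
      tsum_nonpos fun j => hterm (j + 1)
    linarith
  have hpos : 0 < Rr 0 := by
    have : Rr 0 = 1 := by simp [Rr, τr]
    rw [this]; norm_num
  obtain ⟨y, -, hy⟩ := intermediate_value_Icc' hxpos.le Rr_cont.continuousOn
    (show (0:ℝ) ∈ Set.Icc (Rr x) (Rr 0) from ⟨hneg.le, hpos.le⟩)
  exact Rr_ne y hy

theorem lm_pos' (k : ℕ) : 0 < lm k := lm_pos (lu_pos k)

theorem lu_inj : Function.Injective lu := by
  intro k l h
  by_contra hne
  exact lu_ne (k := l) (l := k) hne (lu_pos l) h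

theorem lm_tsum : ∑' k, lm k = 1 := by
  have : bm = lm := by
    ext k; simp [bm, (lu_pos k).ne']
  rw [← this]; exact bm_tsum

end Pool.Agent.V1174.FF
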