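import Mathlib
import Pool.Agent.V1174.FF.Pos

/-! The complex field. -/

namespace Pool.Agent.V1174.FF
open Filter Topology Finset

/-- the points -/
noncomputable def xs (n : ℕ) : ℂ :=
  if Even n then om / (lu (n / 2) : ℂ) else (starRingEnd ℂ) om / (lu (n / 2) : ℂ)
/-- the masses -/
noncomputable def as (n : ℕ) : ℝ := lm (n / 2) / lu (n / 2)

lemma xs_even (k : ℕ) : xs (2 * k) = om / (lu k : ℂ) := by
  unfold xs; rw [if_pos (even_two_mul k)]; congr 3; omega
lemma xs_odd (k : ℕ) : xs (2 * k + 1) = (starRingEnd ℂ) om / (lu k : ℂ) := by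
  unfold xs
  rw [if_neg (by rw [Nat.not_even_iff_odd]; exact odd_two_mul_add_one k)]; congr 3; omega
lemma as_even (k : ℕ) : as (2 * k) = lm k / lu k := by
  unfold as; congr 2 <;> omega
lemma as_odd (k : ℕ) : as (2 * k + 1) = lm k / lu k := by
  unfold as; congr 2 <;> omega

lemma as_pos (n : ℕ) : 0 < as n := div_pos (lm_pos' _) (lu_pos _)

lemma xs_norm (n : ℕ) : ‖xs n‖ = 1 / lu (n / 2) := by
  unfold xs
  split_ifs
  · rw [norm_div, om_norm, Complex.norm_real, Real.norm_eq_abs, abs_of_pos (lu_pos _)]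
  · rw [norm_div, Complex.norm_conj, om_norm, Complex.norm_real, Real.norm_eq_abs,
      abs_of_pos (lu_pos _)]

lemma xs_ne (n : ℕ) : xs n ≠ 0 := by
  intro h
  have := xs_norm n
  rw [h, norm_zero] at this
  have h2 := lu_pos (n / 2)
  have : 0 < 1 / lu (n / 2) := by positivity
  linarith

lemma xs_im (n : ℕ) : (xs n).im = (if Even n then 1 else -1) * (√3 / 2 / lu (n / 2)) := by
  unfold xs
  split_ifs
  · rw [Complex.div_ofReal_im, om_im]; ring
  · rw [Complex.div_ofReal_im, Complex.conj_im, om_im]; ring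

lemma xs_inj : Function.Injective xs := by
  intro a b h
  have h1 := congrArg (fun z : ℂ => ‖z‖) h
  simp only [xs_norm] at h1
  have h2 : lu (a / 2) = lu (b / 2) := by
    have := lu_pos (a / 2)
    have := lu_pos (b / 2)
    field_simp at h1
    linarith
  have h3 : a / 2 = b / 2 := lu_inj h2
  have h4 := congrArg Complex.im h
  rw [xs_im, xs_im, h2] at h4
  have h5 : (√3 / 2 / lu (b / 2)) ≠ 0 := by
    have := s3pos; have := lu_pos (b / 2); positivity
  have h6 := mul_right_cancel₀ h5 h4
  by_cases ha : Even a <;> by_cases hb : Even b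
  · rw [Nat.even_iff] at ha hb; omega
  · rw [if_pos ha, if_neg hb] at h6; norm_num at h6
  · rw [if_neg ha, if_pos hb] at h6; norm_num at h6
  · rw [Nat.even_iff] at ha hb; omega

lemma as_div_summable : Summable fun n => as n / ‖xs n‖ := by
  have h : ∀ n, as n / ‖xs n‖ = lm (n / 2) := by
    intro n
    rw [xs_norm]
    unfold as
    have := lu_pos (n / 2)
    field_simp
  simp only [h]
  have h1 : HasSum (fun k => lm (2 * k / 2)) 1 := by
    have : ∀ k, 2 * k / 2 = k := fun k => by omega
    simp only [this]; rw [← lm_tsum]; exact lm_summable.hasSum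
  have h2 : HasSum (fun k => lm ((2 * k + 1) / 2)) 1 := by
    have : ∀ k, (2 * k + 1) / 2 = k := fun k => by omega
    simp only [this]; rw [← lm_tsum]; exact lm_summable.hasSum
  exact (HasSum.even_add_odd h1 h2).summable

lemma xs_tendsto : Tendsto (fun n => ‖xs n‖) atTop atTop := by
  simp only [xs_norm]
  have h1 : Tendsto lu atTop (𝓝[>] 0) := by
    rw [tendsto_nhdsWithin_iff]
    refine ⟨squeeze_zero lu_nonneg (fun k => le_wK (lu_nonneg k) le_rfl (lu_sq k)) wK_tendsto,
      Eventually.of_forall lu_pos⟩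
  have h2 : Tendsto (fun n : ℕ => n / 2) atTop atTop :=
    Nat.tendsto_div_const_atTop (by norm_num)
  simp only [one_div]
  exact tendsto_inv_nhdsGT_zero.comp (h1.comp h2)

lemma q_ne_of {z : ℂ} (hz : z ∉ Set.range xs) (k : ℕ) : q (z * lu k) ≠ 0 := by
  intro h
  have hu : (lu k : ℂ) ≠ 0 := by exact_mod_cast (lu_pos k).ne'
  have h1 : (z * lu k - om) * (z * lu k - (starRingEnd ℂ) om) = q (z * lu k) := by
    have h1 := om_add_conj
    have h2 := om_mul_conj
    unfold q
    linear_combination (-(z * lu k)) * h1 + h2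
  rw [h, mul_eq_zero] at h1
  rcases h1 with h1 | h1
  · apply hz
    refine ⟨2 * k, ?_⟩
    rw [xs_even, div_eq_iff hu]
    linear_combination -h1
  · apply hz
    refine ⟨2 * k + 1, ?_⟩
    rw [xs_odd, div_eq_iff hu]
    linear_combination -h1

lemma term_summable (z c : ℂ) (hc : ‖c‖ = 1) :
    Summable fun k => (lm k : ℂ) / (z * lu k - c) := by
  apply Summable.of_norm_bounded_eventually_nat (g := fun k => lm k * 2) (lm_summable.mul_right 2)
  have h : Tendsto (fun K => ‖z‖ * wK K) atTop (𝓝 0) := by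
    simpa using wK_tendsto.const_mul ‖z‖
  have h' := h.eventually_le_const (show (0:ℝ) < 1 / 2 by norm_num)
  filter_upwards [h'] with k hk
  have e : ‖z * (lu k : ℂ)‖ ≤ 1 / 2 := by
    rw [norm_mul, Complex.norm_real, Real.norm_eq_abs, abs_of_nonneg (lu_nonneg k)]
    exact (mul_le_mul_of_nonneg_left (le_wK (lu_nonneg k) le_rfl (lu_sq k)) (norm_nonneg _)).trans hk
  have h1 : 1 / 2 ≤ ‖z * lu k - c‖ := by
    have := norm_sub_norm_le c (z * lu k)
    rw [norm_sub_rev] at this
    linarith
  rw [norm_div, Complex.norm_real, Real.norm_eq_abs, abs_of_nonneg (lm_nonneg k),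
    div_le_iff₀ (by linarith)]
  nlinarith [lm_nonneg k]

theorem field_hasSum {z : ℂ} (hz : z ∉ Set.range xs) :
    HasSum (fun n => (as n : ℂ) / (z - xs n)) (-Phi z) := by
  have hu : ∀ k, (lu k : ℂ) ≠ 0 := fun k => by exact_mod_cast (lu_pos k).ne'
  have hne : ∀ n, z - xs n ≠ 0 := by
    intro n h
    exact hz ⟨n, (sub_eq_zero.mp h).symm⟩
  have e1 : ∀ k, (as (2 * k) : ℂ) / (z - xs (2 * k)) = (lm k : ℂ) / (z * lu k - om) := by
    intro k
    have := hne (2 * k)
    rw [xs_even] at this
    rw [as_even, xs_even]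
    have h2 : z * lu k - om ≠ 0 := by
      intro h; apply this; rw [sub_eq_zero] at h ⊢; rw [eq_div_iff (hu k)]; exact h
    push_cast
    have hk := hu k
    field_simp
  have e2 : ∀ k, (as (2 * k + 1) : ℂ) / (z - xs (2 * k + 1))
      = (lm k : ℂ) / (z * lu k - (starRingEnd ℂ) om) := by
    intro k
    have := hne (2 * k + 1)
    rw [xs_odd] at this
    rw [as_odd, xs_odd]
    have h2 : z * lu k - (starRingEnd ℂ) om ≠ 0 := by
      intro h; apply this; rw [sub_eq_zero] at h ⊢; rw [eq_div_iff (hu k)]; exact h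
    push_cast
    have hk := hu k
    field_simp
  have s1 := term_summable z om om_norm
  have s2 := term_summable z ((starRingEnd ℂ) om) (by rw [Complex.norm_conj, om_norm])
  have t1 : HasSum (fun k => (as (2 * k) : ℂ) / (z - xs (2 * k)))
      (∑' k, (lm k : ℂ) / (z * lu k - om)) := by
    simp only [e1]; exact s1.hasSum
  have t2 : HasSum (fun k => (as (2 * k + 1) : ℂ) / (z - xs (2 * k + 1)))
      (∑' k, (lm k : ℂ) / (z * lu k - (starRingEnd ℂ) om)) := by
    simp only [e2]; exact s2.hasSum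
  have h := HasSum.even_add_odd (f := fun n => (as n : ℂ) / (z - xs n)) t1 t2
  have hval : (∑' k, (lm k : ℂ) / (z * lu k - om))
      + (∑' k, (lm k : ℂ) / (z * lu k - (starRingEnd ℂ) om)) = -Phi z := by
    rw [← Summable.tsum_add s1 s2]
    unfold Phi
    have hl : (1 : ℂ) = ∑' k, (lm k : ℂ) := by
      rw [← Complex.ofReal_tsum, lm_tsum]; simp
    have hls : Summable fun k => (lm k : ℂ) := Complex.ofRealCLM.summable lm_summable
    have hP : 1 + ∑' k, (lm k : ℂ) * (τ (z * lu k) - 1)
        = ∑' k, ((lm k : ℂ) + (lm k : ℂ) * (τ (z * lu k) - 1)) := by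
      rw [Summable.tsum_add hls (Phi_summable z), ← hl]
    rw [hP, ← tsum_neg]
    apply tsum_congr
    intro k
    have hq := q_ne_of hz k
    have h1 : (z * lu k - om) * (z * lu k - (starRingEnd ℂ) om) = q (z * lu k) := by
      have h1 := om_add_conj
      have h2 := om_mul_conj
      unfold q
      linear_combination (-(z * lu k)) * h1 + h2
    have hq1 : z * lu k - om ≠ 0 := by
      intro h0; rw [h0, zero_mul] at h1; exact hq h1.symm
    have hq2 : z * lu k - (starRingEnd ℂ) om ≠ 0 := by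
      intro h0; rw [h0, mul_zero] at h1; exact hq h1.symm
    unfold τ
    rw [div_add_div _ _ hq1 hq2, h1]
    have h2 := om_add_conj
    field_simp
    linear_combination (-(lm k : ℂ)) * h2
  rw [hval] at h
  exact h

theorem field_ne {z : ℂ} (hz : z ∉ Set.range xs) : -Phi z ≠ 0 :=
  neg_ne_zero.mpr (Phi_ne (q_ne_of hz))

end Pool.Agent.V1174.FF
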